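import Pool.Agent.Lib.MP_d86530_co.Lev.Iface

/-! # MP_d86530_co, level layout: the recursion over discs

`DiscAPI K`: the properties of triangulated discs (`K l E`: boundary cycle `l`, edges `E`) which are
used. `disc_rec_abs`: closure properties (`DiscClosed`) give `PD l E` for every disc. -/

set_option autoImplicit false

namespace Pool.Agent.Lib.MP_d86530_co

/-- the properties of triangulated discs used in the recursion -/
structure DiscAPI {W : Type*} (K : List W → (W → W → Prop) → Prop) : Prop where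
  gph : ∀ l E, K l E → Gph E
  nd : ∀ l E, K l E → l.Nodup
  len : ∀ l E, K l E → 2 ≤ l.length
  fin : ∀ l E, K l E → {p : W × W | E p.1 p.2}.Finite
  two : ∀ a b E, K [a, b] E → ∀ u v, E u v ↔ Ed a b u v
  adj : ∀ a b l E, K (a :: l ++ [b]) E → E a b
  rot : ∀ A B E, K (A ++ B) E → K (B ++ A) E
  rev : ∀ l E, K l E → K l.reverse E
  cut : ∀ x y A B E, K (x :: A ++ y :: B) E → E x y → A ≠ [] → B ≠ [] →
    ∃ E₁ E₂, K (x :: A ++ [y]) E₁ ∧ K (x :: y :: B) E₂ ∧ (∀ u v, E u v ↔ E₁ u v ∨ E₂ u v) ∧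
      (∀ v, Sup E₁ v → Sup E₂ v → v = x ∨ v = y)
  peel : ∀ a b l E, K (a :: l ++ [b]) E → l ≠ [] →
    (∃ w E', w ∉ a :: l ++ [b] ∧ K (w :: a :: l ++ [b]) E' ∧
      (∀ u v, E u v ↔ E' u v ∨ Ed a b u v) ∧ ¬ E' a b) ∨
    (∃ A x B E₁ E₂, l = A ++ x :: B ∧ K (a :: A ++ [x]) E₁ ∧ K (x :: B ++ [b]) E₂ ∧
      (∀ v, Sup E₁ v → Sup E₂ v → v = x) ∧ (∀ u v, E u v ↔ E₁ u v ∨ E₂ u v ∨ Ed a b u v))

namespace Rec

variable {W : Type*} {K : List W → (W → W → Prop) → Prop}

theorem ed_symm {a b u v : W} (h : Ed a b u v) : Ed a b v u := by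
  rcases h with ⟨h1, h2⟩ | ⟨h1, h2⟩
  · exact Or.inr ⟨h2, h1⟩
  · exact Or.inl ⟨h2, h1⟩

theorem ed_comm {a b u v : W} : Ed a b u v ↔ Ed b a u v := by
  unfold Ed; tauto

theorem first_split {P : W → Prop} (R : List W) (h : ∃ r ∈ R, P r) :
    ∃ R₁ r m, R = R₁ ++ r :: m ∧ P r ∧ ∀ r' ∈ R₁, ¬ P r' := by
  classical
  induction R with
  | nil => obtain ⟨r, h1, -⟩ := h; exact absurd h1 List.not_mem_nil
  | cons a R ih =>
    by_cases ha : P a
    · exact ⟨[], a, R, rfl, ha, fun r' h' => absurd h' List.not_mem_nil⟩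
    · obtain ⟨r, h1, h2⟩ := h
      have h3 : r ∈ R := by
        rcases List.mem_cons.1 h1 with h4 | h4
        · exact absurd (h4 ▸ h2) ha
        · exact h4
      obtain ⟨R₁, r', m, e, h5, h6⟩ := ih ⟨r, h3, h2⟩
      refine ⟨a :: R₁, r', m, by rw [e]; rfl, h5, ?_⟩
      intro s hs
      rcases List.mem_cons.1 hs with h7 | h7
      · rw [h7]; exact ha
      · exact h6 s h7

/-- number of (oriented) edges -/
noncomputable def cnt (E : W → W → Prop) : ℕ := {p : W × W | E p.1 p.2}.ncard

theorem cnt_lt (hK : DiscAPI K) {l : List W} {E E' : W → W → Prop} (h : K l E)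
    (hs : ∀ u v, E' u v → E u v) {a b : W} (h1 : E a b) (h2 : ¬ E' a b) : cnt E' < cnt E := by
  refine Set.ncard_lt_ncard ⟨fun p hp => hs _ _ hp, fun h' => h2 ?_⟩ (hK.fin _ _ h)
  exact h' (a := (a, b)) h1

theorem nd_ne {A B : List W} {x y : W} (h : (A ++ x :: B).Nodup) (hy : y ∈ B) : x ≠ y := by
  rintro rfl
  rw [List.nodup_append] at h
  exact (List.nodup_cons.1 h.2.1).1 hy

theorem last_cc {c b : W} {R : List W} : (c :: (R ++ [b])).getLast? = some b := by
  rw [← List.cons_append, List.getLast?_concat]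

theorem last_split (l : List W) (h : 2 ≤ l.length) : ∃ a l' b, l = a :: l' ++ [b] := by
  cases l with
  | nil => simp at h
  | cons a l =>
    rcases List.eq_nil_or_concat l with h1 | ⟨l', b, h1⟩
    · subst h1; simp at h
    · exact ⟨a, l', b, by rw [h1]; simp⟩

theorem sup_mem (hK : DiscAPI K) {l : List W} {E : W → W → Prop} (h : K l E) {x : W}
    (hx : x ∈ l) : Sup E x := by
  obtain ⟨A, B, rfl⟩ := List.append_of_mem hx
  have h1 := hK.rot _ _ _ h
  have h2 := hK.len _ _ h1
  obtain ⟨a, l', b, e⟩ := last_split _ h2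
  have ha : a = x := by
    have : (x :: B ++ A) = a :: (l' ++ [b]) := by simpa using e
    exact (List.cons.inj this).1.symm
  rw [e] at h1
  exact ⟨b, ha ▸ hK.adj _ _ _ _ h1⟩

/-- `E` has no edges between `Q` and `R` except between their first and their last elements -/
def Inv (Q R : List W) (E : W → W → Prop) : Prop :=
  ∀ q ∈ Q, ∀ r ∈ R, E q r → (Q.head? = some q ∧ R.head? = some r) ∨
    (Q.getLast? = some q ∧ R.getLast? = some r)

/-- step of the recursion for discs with a top edge -/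
theorem stepD (hK : DiscAPI K) {PD : List W → (W → W → Prop) → Prop}
    {PF : List W → List W → (W → W → Prop) → Prop} (hc : DiscClosed PD PF) {l : List W}
    {E : W → W → Prop} (h : K l E)
    (ihD : ∀ l' E', K l' E' → cnt E' < cnt E → PD l' E')
    (ihF : ∀ z R E', R ≠ [] → K ([z] ++ R.reverse) E' → cnt E' < cnt E → PF [z] R E') :
    PD l E := by
  obtain ⟨a, l', b, rfl⟩ := last_split l (hK.len _ _ h)
  have hnd := hK.nd _ _ h
  have hab := hK.adj _ _ _ _ h
  by_cases hl : l' = []
  · subst hl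
    have h2 := hK.two a b E h
    have e : E = Ed a b := by
      funext u v; exact propext (h2 u v)
    subst e
    have hne : a ≠ b := by
      intro h'; subst h'; simp at hnd
    exact hc.edge a b hne
  rcases hK.peel a b l' E h hl with ⟨w, E', hw, h1, h2, h3⟩ | ⟨A, x, B, E₁, E₂, e, h1, h2, h3, h4⟩
  · have h4 : K ([w] ++ (a :: l' ++ [b]).reverse) E' := by
      have h5 := hK.rev _ _ h1
      have e5 : (w :: a :: l' ++ [b]).reverse = (a :: l' ++ [b]).reverse ++ [w] := by simp
      rw [e5] at h5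
      exact hK.rot _ _ _ h5
    have hlt : cnt E' < cnt E :=
      cnt_lt hK h (fun u v k => (h2 u v).2 (Or.inl k)) hab h3
    have h5 := ihF w (a :: l' ++ [b]) E' (by simp) h4 hlt
    refine hc.di w a b l' E' E ?_ (hK.gph _ _ h1) (hK.gph _ _ h) h5 h3 h2
    exact hK.nd _ _ h1
  · subst e
    have e1 : a :: (A ++ x :: B) ++ [b] = a :: A ++ x :: B ++ [b] := by simp
    rw [e1] at h hnd ⊢
    have hg1 := hK.gph _ _ h1
    have hg2 := hK.gph _ _ h2
    have hax : a ≠ x := by
      refine nd_ne (A := []) (B := A ++ x :: B ++ [b]) ?_ (by simp)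
      simpa using hnd
    have hbx : b ≠ x := by
      refine (nd_ne (A := a :: A) (B := B ++ [b]) ?_ (by simp)).symm
      simpa using hnd
    have hlt1 : cnt E₁ < cnt E := by
      refine cnt_lt hK h (fun u v k => (h4 u v).2 (Or.inl k))
        (a := x) (b := b) ((h4 _ _).2 (Or.inr (Or.inl (hK.adj _ _ _ _ h2)))) ?_
      intro k
      have := h3 b ⟨x, hg1.1 _ _ k⟩ (sup_mem hK h2 (by simp))
      exact hbx this
    have hlt2 : cnt E₂ < cnt E := by
      refine cnt_lt hK h (fun u v k => (h4 u v).2 (Or.inr (Or.inl k)))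
        (a := a) (b := x) ((h4 _ _).2 (Or.inl (hK.adj _ _ _ _ h1))) ?_
      intro k
      have := h3 a (sup_mem hK h1 (by simp)) ⟨x, k⟩
      exact hax this
    exact hc.dc a b x A B E₁ E₂ E hnd hg1 hg2 (hK.gph _ _ h) (ihD _ _ h1 hlt1) (ihD _ _ h2 hlt2)
      h3 h4

/-- step of the recursion for discs with two anchors -/
theorem stepF (hK : DiscAPI K) {PD : List W → (W → W → Prop) → Prop}
    {PF : List W → List W → (W → W → Prop) → Prop} (hc : DiscClosed PD PF) {Q R : List W}
    {E : W → W → Prop} (hQ : Q ≠ []) (hR : R ≠ []) (h : K (Q ++ R.reverse) E)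
    (hI : (∃ z, Q = [z]) ∨ Inv Q R E)
    (ihD : ∀ l' E', K l' E' → cnt E' ≤ cnt E → PD l' E')
    (ihF : ∀ Q' R' E', Q' ≠ [] → R' ≠ [] → K (Q' ++ R'.reverse) E' →
      ((∃ z, Q' = [z]) ∨ Inv Q' R' E') → cnt E' < cnt E → PF Q' R' E') :
    PF Q R E := by
  have hnd := hK.nd _ _ h
  have hg := hK.gph _ _ h
  obtain ⟨c, R', rfl⟩ : ∃ c R', R = c :: R' := List.exists_cons_of_ne_nil hR
  obtain ⟨z, Q', rfl⟩ : ∃ z Q', Q = z :: Q' := List.exists_cons_of_ne_nil hQ
  by_cases hR' : R' = []
  · subst hR'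
    by_cases hQ' : Q' = []
    · subst hQ'
      have h2 := hK.two z c E (by simpa using h)
      have e : E = Ed z c := by
        funext u v; exact propext (h2 u v)
      subst e
      refine hc.f0 z c ?_
      rintro rfl
      simp at hnd
    · have h1 : K (c :: (z :: Q').reverse) E := by
        have := hK.rev _ _ h
        simpa using this
      refine hc.fd (z :: Q') c E (hK.nd _ _ h1) hg ?_ (ihD _ _ h1 le_rfl)
      have : 0 < Q'.length := List.length_pos_iff.2 hQ'
      simp only [List.length_cons]; omega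
  -- now `R'` is not empty
  obtain ⟨R₀, b, rfl⟩ : ∃ R₀ b, R' = R₀ ++ [b] := by
    rcases List.eq_nil_or_concat R' with h1 | ⟨l', b, h1⟩
    · exact absurd h1 hR'
    · exact ⟨l', b, by rw [h1]; simp⟩
  by_cases hfc : ∃ m₁ r m₂, Q' = [] ∧ R₀ = m₁ ++ r :: m₂ ∧ E z r
  · -- FC
    obtain ⟨m₁, r, m₂, rfl, rfl, hzr⟩ := hfc
    have h1 : K (z :: (b :: m₂.reverse) ++ r :: (m₁.reverse ++ [c])) E := by
      have e : [z] ++ (c :: (m₁ ++ r :: m₂ ++ [b])).reverse =
          z :: (b :: m₂.reverse) ++ r :: (m₁.reverse ++ [c]) := by simp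
      rw [← e]; exact h
    obtain ⟨E₁, E₂, k1, k2, k3, k4⟩ := hK.cut _ _ _ _ _ h1 hzr (by simp) (by simp)
    have hg1 := hK.gph _ _ k1
    have hg2 := hK.gph _ _ k2
    have e1 : K ([z] ++ (r :: m₂ ++ [b]).reverse) E₁ := by
      have e : [z] ++ (r :: m₂ ++ [b]).reverse = z :: (b :: m₂.reverse) ++ [r] := by simp
      rw [e]; exact k1
    have e2 : K ([z] ++ (c :: m₁ ++ [r]).reverse) E₂ := by
      have e : [z] ++ (c :: m₁ ++ [r]).reverse = z :: r :: (m₁.reverse ++ [c]) := by simp
      rw [e]; exact k2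
    have hrz1 : E₁ r z := hg1.1 _ _ (hK.adj _ _ _ _ k1)
    have hrz2 : E₂ r z := by
      have := hK.rot [z] (r :: (m₁.reverse ++ [c])) E₂ k2
      exact hK.adj r z (m₁.reverse ++ [c]) E₂ this
    have hnd' : (z :: c :: m₁ ++ r :: m₂ ++ [b]).Nodup := by
      have e : ([z] ++ (c :: (m₁ ++ r :: m₂ ++ [b])).reverse).Perm
          ([z] ++ (c :: (m₁ ++ r :: m₂ ++ [b]))) :=
        List.Perm.append_left _ (List.reverse_perm _)
      have h6 := e.nodup_iff.1 hnd
      simpa using h6
    have hbz : b ≠ z ∧ b ≠ r ∧ c ≠ z ∧ c ≠ r := by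
      refine ⟨(nd_ne (A := []) (B := c :: m₁ ++ r :: m₂ ++ [b]) (by simpa using hnd')
          (by simp)).symm,
        (nd_ne (A := z :: c :: m₁) (B := m₂ ++ [b]) (by simpa using hnd') (by simp)).symm,
        (nd_ne (A := []) (B := c :: m₁ ++ r :: m₂ ++ [b]) (by simpa using hnd')
          (by simp)).symm,
        nd_ne (A := [z]) (B := m₁ ++ r :: m₂ ++ [b]) (by simpa using hnd') (by simp)⟩
    have hlt1 : cnt E₁ < cnt E := by
      -- `c` is not in the first part
      obtain ⟨d, hd⟩ := sup_mem hK k2 (x := c) (by simp)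
      refine cnt_lt hK h (fun u v k => (k3 u v).2 (Or.inl k)) ((k3 _ _).2 (Or.inr hd)) ?_
      intro k
      rcases k4 c ⟨d, k⟩ ⟨d, hd⟩ with h7 | h7
      · exact hbz.2.2.1 h7
      · exact hbz.2.2.2 h7
    have hlt2 : cnt E₂ < cnt E := by
      obtain ⟨d, hd⟩ := sup_mem hK k1 (x := b) (by simp)
      refine cnt_lt hK h (fun u v k => (k3 u v).2 (Or.inr k)) ((k3 _ _).2 (Or.inl hd)) ?_
      intro k
      rcases k4 b ⟨d, hd⟩ ⟨d, k⟩ with h7 | h7
      · exact hbz.1 h7
      · exact hbz.2.1 h7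
    have p1 := ihF [z] (r :: m₂ ++ [b]) E₁ (by simp) (by simp) e1 (Or.inl ⟨z, rfl⟩) hlt1
    have p2 := ihF [z] (c :: m₁ ++ [r]) E₂ (by simp) (by simp) e2 (Or.inl ⟨z, rfl⟩) hlt2
    have := hc.fc z c b r m₁ m₂ E₂ E₁ E hnd' hg2 hg1 hg p2 p1 hrz2 hrz1
      (fun v s1 s2 => (k4 v s2 s1).symm) (fun u v => by rw [k3 u v]; exact or_comm)
    simpa using this
  -- the invariant
  have hI' : Inv (z :: Q') (c :: (R₀ ++ [b])) E := by
    rcases hI with ⟨z', hz'⟩ | hI
    · have hQ' : Q' = [] := by
        have := congrArg List.length hz'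
        simpa using this
      subst hQ'
      intro q hq r hr e
      have hq' : q = z := by simpa using hq
      subst hq'
      simp only [List.mem_cons, List.mem_append, List.not_mem_nil, or_false] at hr
      rcases hr with rfl | hr | rfl
      · exact Or.inl ⟨rfl, rfl⟩
      · obtain ⟨m₁, m₂, rfl⟩ := List.append_of_mem hr
        exact absurd ⟨m₁, r, m₂, rfl, rfl, e⟩ hfc
      · exact Or.inr ⟨rfl, last_cc⟩
    · exact hI
  obtain ⟨Q₀, q, hq⟩ : ∃ Q₀ q, z :: Q' = Q₀ ++ [q] := by
    rcases List.eq_nil_or_concat (z :: Q') with h1 | ⟨l', b, h1⟩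
    · exact absurd h1 (by simp)
    · exact ⟨l', b, by rw [h1]; simp⟩
  have hzhead : (Q₀ ++ [q]).head? = some z := by rw [← hq]; rfl
  rw [hq] at h hnd hI' ⊢
  clear hI hfc hQ hR'
  have hRrev : (c :: (R₀ ++ [b])).reverse = b :: (R₀.reverse ++ [c]) := by simp
  have h1 : K (b :: (R₀.reverse ++ [c] ++ Q₀) ++ [q]) E := by
    have h2 := hK.rot _ _ _ h
    rw [hRrev] at h2
    have e : b :: (R₀.reverse ++ [c]) ++ (Q₀ ++ [q]) = b :: (R₀.reverse ++ [c] ++ Q₀) ++ [q] := by
      simp
    rw [← e]; exact h2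
  have hnd' : (Q₀ ++ q :: c :: (R₀ ++ [b])).Nodup := by
    have e : (Q₀ ++ [q] ++ (c :: (R₀ ++ [b])).reverse).Perm (Q₀ ++ q :: c :: (R₀ ++ [b])) := by
      have e2 : Q₀ ++ q :: c :: (R₀ ++ [b]) = Q₀ ++ [q] ++ (c :: (R₀ ++ [b])) := by simp
      rw [e2]
      exact List.Perm.append_left _ (List.reverse_perm _)
    exact e.nodup_iff.1 hnd
  have hqb : q ≠ b := by
    rintro rfl; simp [List.nodup_append] at hnd'
  have hcb : c ≠ b := by
    rintro rfl; simp [List.nodup_append] at hnd'
  rcases hK.peel b q _ E h1 (by simp) with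
    ⟨w, E', hw, k1, k2, k3⟩ | ⟨A, x, B, E₁, E₂, e, k1, k2, k3, k4⟩
  · -- interior third vertex: FA
    have hg' := hK.gph _ _ k1
    have hlt' : cnt E' < cnt E :=
      cnt_lt hK h (fun u v k => (k2 u v).2 (Or.inl k)) (hK.adj _ _ _ _ h1) k3
    have hsub : ∀ u v, E' u v → E u v := fun u v k => (k2 u v).2 (Or.inl k)
    have hwb : E' w b := by
      have h3 := hK.rot [w] (b :: (R₀.reverse ++ [c] ++ Q₀) ++ [q]) E' k1
      have h4 : K ((b :: (R₀.reverse ++ [c] ++ Q₀ ++ [q])) ++ [w]) E' := by simpa using h3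
      exact hg'.1 _ _ (hK.adj _ _ _ _ h4)
    have hwnd : (Q₀ ++ q :: w :: c :: (R₀ ++ [b])).Nodup := by
      have e : (w :: b :: (R₀.reverse ++ [c] ++ Q₀) ++ [q]).Perm
          (Q₀ ++ q :: w :: c :: (R₀ ++ [b])) := by
        have e1 : (w :: (b :: (R₀.reverse ++ [c] ++ Q₀) ++ [q])).Perm
            (w :: (Q₀ ++ q :: c :: (R₀ ++ [b]))) := by
          refine List.Perm.cons _ ?_
          have e2 : b :: (R₀.reverse ++ [c] ++ Q₀) ++ [q] =
              (c :: (R₀ ++ [b])).reverse ++ (Q₀ ++ [q]) := by simp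
          have e3 : Q₀ ++ q :: c :: (R₀ ++ [b]) = (Q₀ ++ [q]) ++ (c :: (R₀ ++ [b])) := by simp
          rw [e2, e3]
          exact List.perm_append_comm.trans (List.Perm.append_left _ (List.reverse_perm _))
        refine e1.trans ?_
        have e4 : Q₀ ++ q :: w :: c :: (R₀ ++ [b]) = (Q₀ ++ [q]) ++ w :: (c :: (R₀ ++ [b])) := by
          simp
        have e5 : w :: (Q₀ ++ q :: c :: (R₀ ++ [b])) =
            w :: ((Q₀ ++ [q]) ++ (c :: (R₀ ++ [b]))) := by simp
        rw [e4, e5]
        exact List.perm_middle.symm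
      exact e.nodup_iff.1 (hK.nd _ _ k1)
    have hwq : w ≠ q ∧ w ≠ b ∧ w ∉ Q₀ ∧ w ∉ c :: (R₀ ++ [b]) := by
      refine ⟨?_, ?_, ?_, ?_⟩
      · rintro rfl; simp [List.nodup_append] at hwnd
      · rintro rfl; simp [List.nodup_append] at hwnd
      · intro hm
        rw [List.nodup_append] at hwnd
        exact hwnd.2.2 w hm w (by simp) rfl
      · intro hm
        rw [List.nodup_append] at hwnd
        have h8 := hwnd.2.1
        rw [List.nodup_cons, List.nodup_cons] at h8
        exact h8.2.1 hm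
    obtain ⟨R₁, r, m, er, h3, h4⟩ := first_split (P := fun r => E' w r) (c :: (R₀ ++ [b]))
      ⟨b, by simp, hwb⟩
    -- the invariant for the left part
    have hIX : ∀ E₂ : W → W → Prop, (∀ u v, E₂ u v → E' u v) →
        Inv (Q₀ ++ [q, w]) (R₁ ++ [r]) E₂ := by
      intro E₂ hs q' hq' r' hr' e'
      have e'' := hs _ _ e'
      have hr'' : r' ∈ c :: (R₀ ++ [b]) := by
        rw [er]
        rcases List.mem_append.1 hr' with h6 | h6
        · exact List.mem_append_left _ h6
        · rw [List.mem_singleton.1 h6]; simp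
      by_cases hq'' : q' = w
      · subst hq''
        right
        have : r' = r := by
          rcases List.mem_append.1 hr' with h6 | h6
          · exact absurd e'' (h4 _ h6)
          · exact List.mem_singleton.1 h6
        subst this
        constructor
        · simp
        · simp
      · have hq3 : q' ∈ Q₀ ++ [q] := by
          simp only [List.mem_append, List.mem_cons, List.not_mem_nil, or_false] at hq' ⊢
          tauto
        rcases hI' q' hq3 r' hr'' (hsub _ _ e'') with ⟨h6, h7⟩ | ⟨h6, h7⟩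
        · left
          constructor
          · rw [← h6]
            cases Q₀ <;> simp
          · rw [← h7, er]
            cases R₁ <;> simp
        · exfalso
          have h8 : q' = q := by simpa using h6.symm
          have h9 : r' = b := by
            rw [last_cc] at h7
            exact (Option.some.inj h7).symm
          rw [h8, h9] at e''
          exact k3 (hg'.1 _ _ e'')
    have hres : ∀ (E₁ E₂ : W → W → Prop), PF (Q₀ ++ [q, w]) (R₁ ++ [r]) E₁ → PF [w] (r :: m) E₂ →
        Gph E₁ → Gph E₂ → E₁ r w → E₂ r w → (∀ u, Sup E₁ u → Sup E₂ u → u = r ∨ u = w) →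
        ¬ E₁ q b → ¬ E₂ q b → (∀ u v, E' u v ↔ E₁ u v ∨ E₂ u v) →
        PF (Q₀ ++ [q]) (c :: (R₀ ++ [b])) E := by
      intro E₁ E₂ p1 p2 g1 g2 a1 a2 s n1 n2 he
      have h10 := hc.fa Q₀ q w r b R₁ m (c :: R₀) E₁ E₂ E (by rw [← er]; simp) (by simp)
        (by simpa using hwnd) g1 g2 hg p1 p2 a1 a2 s n1 n2
        (fun u v => by rw [k2 u v, he u v, ed_comm]; exact or_assoc)
      simpa using h10
    have hnE' : ¬ E' q b := fun k => k3 (hg'.1 _ _ k)
    by_cases hm : m = []
    · -- the right part is one edge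
      subst hm
      have hrb : r = b := by
        have : (c :: (R₀ ++ [b])).getLast? = (R₁ ++ [r]).getLast? := by rw [er]
        rw [show c :: (R₀ ++ [b]) = (c :: R₀) ++ [b] by simp, List.getLast?_concat,
          List.getLast?_concat] at this
        exact (Option.some.inj this).symm
      subst hrb
      refine hres E' (Ed w r) ?_ (hc.f0 w r hwq.2.1) hg' ⟨fun u v k => ed_symm k, ?_⟩
        (hg'.1 _ _ hwb) (Or.inr ⟨rfl, rfl⟩) ?_ hnE' ?_ ?_
      · refine ihF (Q₀ ++ [q, w]) (R₁ ++ [r]) E' (by simp) (by simp) ?_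
          (Or.inr (hIX E' (fun _ _ k => k))) hlt'
        rw [← er]
        have h11 := hK.rot (w :: r :: (R₀.reverse ++ [c])) (Q₀ ++ [q]) E' (by simpa using k1)
        simpa using h11
      · rintro u (⟨h5, h6⟩ | ⟨h5, h6⟩)
        · exact hwq.2.1 (h5.symm.trans h6)
        · exact hwq.2.1 (h6.symm.trans h5)
      · rintro u - ⟨y, ⟨h5, h6⟩ | ⟨h5, h6⟩⟩
        · exact Or.inr h5
        · exact Or.inl h5
      · rintro (⟨h5, -⟩ | ⟨h5, -⟩)
        · exact hwq.1 h5.symm
        · exact hqb h5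
      · intro u v
        constructor
        · exact Or.inl
        · rintro (k | ⟨h5, h6⟩ | ⟨h5, h6⟩)
          · exact k
          · subst h5; subst h6; exact hwb
          · subst h5; subst h6; exact hg'.1 _ _ hwb
    · -- cut at `w r`
      obtain ⟨m', b', rfl⟩ : ∃ m' b', m = m' ++ [b'] := by
        rcases List.eq_nil_or_concat m with h5 | ⟨l', b, h5⟩
        · exact absurd h5 hm
        · exact ⟨l', b, by rw [h5]; simp⟩
      have hbb : b' = b := by
        have : (c :: (R₀ ++ [b])).getLast? = (R₁ ++ r :: (m' ++ [b'])).getLast? := by rw [er]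
        rw [show c :: (R₀ ++ [b]) = (c :: R₀) ++ [b] by simp,
          show R₁ ++ r :: (m' ++ [b']) = (R₁ ++ r :: m') ++ [b'] by simp, List.getLast?_concat,
          List.getLast?_concat] at this
        exact (Option.some.inj this).symm
      subst hbb
      have e6 : b' :: (R₀.reverse ++ [c]) = b' :: m'.reverse ++ r :: R₁.reverse := by
        rw [← hRrev, er]; simp
      have k1' : K (w :: (b' :: m'.reverse) ++ r :: (R₁.reverse ++ Q₀ ++ [q])) E' := by
        have e7 : w :: b' :: (R₀.reverse ++ [c] ++ Q₀) ++ [q] =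
            w :: (b' :: (R₀.reverse ++ [c])) ++ (Q₀ ++ [q]) := by simp
        rw [e7, e6] at k1
        simpa using k1
      obtain ⟨E₁, E₂, j1, j2, j3, j4⟩ := hK.cut _ _ _ _ _ k1' h3 (by simp) (by simp)
      have g1 := hK.gph _ _ j1
      have g2 := hK.gph _ _ j2
      have a1 : E₁ r w := g1.1 _ _ (hK.adj _ _ _ _ j1)
      have a2 : E₂ r w := by
        have := hK.rot [w] (r :: (R₁.reverse ++ Q₀ ++ [q])) E₂ j2
        exact hK.adj r w (R₁.reverse ++ Q₀ ++ [q]) E₂ this
      have hcle : ∀ E₃ : W → W → Prop, (∀ u v, E₃ u v → E' u v) → cnt E₃ < cnt E := by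
        intro E₃ hs
        refine lt_of_le_of_lt ?_ hlt'
        exact Set.ncard_le_ncard (fun p hp => hs _ _ hp) (hK.fin _ _ k1)
      have s1 : ∀ u v, E₁ u v → E' u v := fun u v k => (j3 u v).2 (Or.inl k)
      have s2 : ∀ u v, E₂ u v → E' u v := fun u v k => (j3 u v).2 (Or.inr k)
      have p1 : PF [w] (r :: (m' ++ [b'])) E₁ := by
        refine ihF [w] (r :: (m' ++ [b'])) E₁ (by simp) (by simp) ?_ (Or.inl ⟨w, rfl⟩)
          (hcle E₁ s1)
        simpa using j1
      have p2 : PF (Q₀ ++ [q, w]) (R₁ ++ [r]) E₂ := by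
        refine ihF (Q₀ ++ [q, w]) (R₁ ++ [r]) E₂ (by simp) (by simp) ?_
          (Or.inr (hIX E₂ s2)) (hcle E₂ s2)
        have h11 := hK.rot (w :: r :: R₁.reverse) (Q₀ ++ [q]) E₂ (by simpa using j2)
        simpa using h11
      exact hres E₂ E₁ p2 p1 g2 g1 a2 a1 (fun u u1 u2 => (j4 u u2 u1).symm)
        (fun k => hnE' (s2 _ _ k)) (fun k => hnE' (s1 _ _ k))
        (fun u v => by rw [j3 u v]; exact or_comm)
  · -- third vertex on the boundary: FB
    have ax1 : E b x := (k4 _ _).2 (Or.inl (hK.adj _ _ _ _ k1))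
    have ax2 : E x q := (k4 _ _).2 (Or.inr (Or.inl (hK.adj _ _ _ _ k2)))
    have hxmem : x ∈ R₀.reverse ++ [c] ++ Q₀ := by rw [e]; simp
    have hbmem : b ∈ c :: (R₀ ++ [b]) := by simp
    have hqmem : q ∈ Q₀ ++ [q] := by simp
    have hlast : (c :: (R₀ ++ [b])).getLast? = some b := last_cc
    have hxQ : x ∉ Q₀ := by
      intro hx
      rcases hI' x (by simp [hx]) b hbmem (hg.1 _ _ ax1) with ⟨-, h7⟩ | ⟨h6, -⟩
      · have : c = b := by simpa using h7
        exact hcb this
      · have : x = q := by simpa using h6.symm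
        subst this
        rw [List.nodup_append] at hnd'
        exact hnd'.2.2 x hx x (by simp) rfl
    have hxR : x ∈ c :: (R₀ ++ [b]) := by
      simp only [List.mem_append, List.mem_reverse, List.mem_cons, List.not_mem_nil,
        or_false] at hxmem ⊢
      tauto
    have hxb : x ≠ b := by
      rintro rfl
      exact hg.2 _ ax1
    have hfin : Q₀ = [] ∧ x = c := by
      rcases hI' q hqmem x hxR (hg.1 _ _ ax2) with ⟨h6, h7⟩ | ⟨-, h7⟩
      · constructor
        · cases Q₀ with
          | nil => rfl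
          | cons y Q₁ =>
            have : y = q := by simpa using h6
            subst this
            simp [List.nodup_append] at hnd'
        · have : c = x := by simpa using h7
          exact this.symm
      · rw [hlast] at h7
        exact absurd (Option.some.inj h7).symm hxb
    obtain ⟨hQ0, hxc⟩ := hfin
    subst hQ0
    subst hxc
    have hAB : A = R₀.reverse ∧ B = [] := by
      have hx' : x ∉ R₀.reverse := by
        intro hx
        simp only [List.nil_append] at hnd'
        rw [List.nodup_cons, List.nodup_cons] at hnd'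
        exact hnd'.2.1 (by simpa using Or.inl hx)
      have e7 : R₀.reverse ++ x :: [] = A ++ x :: B := by simpa using e
      rcases List.append_eq_append_iff.1 e7 with ⟨s, h8, h9⟩ | ⟨s, h8, h9⟩
      · cases s with
        | nil =>
          simp only [List.append_nil] at h8
          simp only [List.nil_append] at h9
          exact ⟨h8, (List.cons.inj h9).2.symm⟩
        | cons y s =>
          exfalso
          have h10 := (List.cons.inj h9).2
          have : s ++ x :: B ≠ [] := by simp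
          exact this h10.symm
      · cases s with
        | nil =>
          simp only [List.append_nil] at h8
          simp only [List.nil_append] at h9
          exact ⟨h8.symm, (List.cons.inj h9).2⟩
        | cons y s =>
          exfalso
          have h10 := (List.cons.inj h9).1
          subst h10
          exact hx' (by rw [h8]; simp)
    obtain ⟨rfl, rfl⟩ := hAB
    have hE2 := hK.two x q E₂ (by simpa using k2)
    have hq1 : ¬ Sup E₁ q := by
      intro hs
      have := k3 q hs ⟨x, (hE2 _ _).2 (Or.inr ⟨rfl, rfl⟩)⟩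
      rw [this] at ax2
      exact hg.2 _ ax2
    have hK1 : K (x :: R₀ ++ [b]) E₁ := by
      have := hK.rev _ _ k1
      simpa using this
    have hlt1 : cnt E₁ ≤ cnt E :=
      Set.ncard_le_ncard (fun p hp => (k4 _ _).2 (Or.inl hp)) (hK.fin _ _ h)
    have hfb := hc.fb q x b R₀ E₁ E (by simpa using hnd') (hK.gph _ _ k1) hg (ihD _ _ hK1 hlt1) hq1
      (fun u v => by
        rw [k4 u v, hE2 u v, ed_comm (a := x) (b := q), ed_comm (a := b) (b := q)])
    simpa using hfb

theorem rec_all (hK : DiscAPI K) {PD : List W → (W → W → Prop) → Prop}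
    {PF : List W → List W → (W → W → Prop) → Prop} (hc : DiscClosed PD PF) (n : ℕ) :
    (∀ l E, K l E → cnt E = n → PD l E) ∧
      (∀ Q R E, Q ≠ [] → R ≠ [] → K (Q ++ R.reverse) E → ((∃ z, Q = [z]) ∨ Inv Q R E) →
        cnt E = n → PF Q R E) := by
  induction n using Nat.strong_induction_on with
  | _ n ih =>
    have hD : ∀ l E, K l E → cnt E = n → PD l E := by
      intro l E h hn
      refine stepD hK hc h ?_ ?_
      · intro l' E' h' hlt
        exact (ih _ (hn ▸ hlt)).1 l' E' h' rfl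
      · intro z R E' hR h' hlt
        exact (ih _ (hn ▸ hlt)).2 [z] R E' (by simp) hR h' (Or.inl ⟨z, rfl⟩) rfl
    refine ⟨hD, ?_⟩
    intro Q R E hQ hR h hI hn
    refine stepF hK hc hQ hR h hI ?_ ?_
    · intro l' E' h' hle
      rcases lt_or_eq_of_le hle with h1 | h1
      · exact (ih _ (hn ▸ h1)).1 l' E' h' rfl
      · exact hD l' E' h' (h1.trans hn)
    · intro Q' R' E' hQ' hR' h' hI' hlt
      exact (ih _ (hn ▸ hlt)).2 Q' R' E' hQ' hR' h' hI' rfl

end Rec

/-- the recursion over discs -/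
theorem disc_rec_abs {W : Type*} {K : List W → (W → W → Prop) → Prop} (hK : DiscAPI K)
    {PD : List W → (W → W → Prop) → Prop} {PF : List W → List W → (W → W → Prop) → Prop}
    (hc : DiscClosed PD PF) {l : List W} {E : W → W → Prop} (h : K l E) : PD l E :=
  (Rec.rec_all hK hc _).1 l E h rfl

end Pool.Agent.Lib.MP_d86530_co
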