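import Pool.Agent.Lib.MP_d86530_co.Lev.Disc
import Pool.Agent.Lib.MP_d86530_co.Lev.Rec

set_option autoImplicit false

namespace Pool.Agent.Lib.MP_d86530_co

open Relation

variable {V : Type*} {T : V → V → V → Prop}

theorem disc_two {a b : V} {E : V → V → Prop} (h : Disc [a, b] E) (u v : V) :
    E u v ↔ Ed a b u v := by
  rcases h with ⟨a', b', h1, h2, rfl⟩ | ⟨T, o, h1, h2, rfl⟩
  · simp only [List.cons.injEq, and_true] at h2
    rw [h2.1, h2.2]
  · have := h2.len
    simp at this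

theorem disc_adj {a b : V} {l : List V} {E : V → V → Prop} (h : Disc (a :: l ++ [b]) E) :
    E a b := by
  rcases h with ⟨a', b', h1, h2, rfl⟩ | ⟨T, o, h1, h2, rfl⟩
  · rcases l with _ | ⟨c, l⟩
    · simp only [List.cons_append, List.nil_append, List.cons.injEq, and_true] at h2
      exact Or.inl h2
    · simp at h2
  · have c : T o b a := h2.close b (by rw [List.getLast?_append_of_ne_nil _ (by simp)]; simp) a
      (by simp)
    exact ⟨h1.adj_symm (h1.adj23 c), h2.ne h1 a (by simp), h2.ne h1 b (by simp)⟩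

theorem disc_cut {x y : V} {A B : List V} {E : V → V → Prop} (h : Disc (x :: A ++ y :: B) E)
    (hxy : E x y) (hA : A ≠ []) (hB : B ≠ []) :
    ∃ E₁ E₂, Disc (x :: A ++ [y]) E₁ ∧ Disc (x :: y :: B) E₂ ∧
      (∀ u v, E u v ↔ E₁ u v ∨ E₂ u v) ∧ (∀ v, Sup E₁ v → Sup E₂ v → v = x ∨ v = y) := by
  rcases h with ⟨a', b', h1, h2, rfl⟩ | ⟨T, o, h1, h2, rfl⟩
  · have := congrArg List.length h2
    have hA' := List.length_pos_iff.2 hA
    have hB' := List.length_pos_iff.2 hB
    simp only [List.cons_append, List.length_cons, List.length_append, List.length_nil] at this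
    omega
  · obtain ⟨E₁, T₂, k1, k2, k3, k4, k5, -, -⟩ := cut h1 h2 hB hxy.1
    exact ⟨E₁, EO T₂ o, k1, Or.inr ⟨T₂, o, k2, k3, rfl⟩, k4, k5⟩

/-- the apex of the boundary edge `a b` is the boundary vertex `w` -/
theorem disc_apex (hT : IsSph T) {o a b w : V} {A B : List V}
    (hl : IsLink T o (a :: (A ++ w :: B) ++ [b])) (hw : T a b w) :
    ∃ E₁ E₂, Disc (a :: A ++ [w]) E₁ ∧ Disc (w :: B ++ [b]) E₂ ∧
      (∀ v, Sup E₁ v → Sup E₂ v → v = w) ∧
      (∀ u v, EO T o u v ↔ E₁ u v ∨ E₂ u v ∨ Ed a b u v) := by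
  obtain ⟨E₁, T₂, k1, k2, k3, k4, k5, k6, k7⟩ := cut hT (o := o) (x := a) (y := w) (A := A)
    (B := B ++ [b]) (by simpa using hl) (by simp) (hT.adj_symm (hT.adj31 hw))
  have hw2 : T₂ a b w := k2.rot2 (k7 b w a (hT.rot hw) (by simp))
  have k3' : IsLink T₂ o (w :: B ++ b :: [a]) := by
    have : IsLink T₂ o ([a] ++ (w :: B ++ [b])) := by simpa using k3
    simpa using this.rotate
  obtain ⟨E₂, T₃, m1, m2, m3, m4, m5, m6, m7⟩ := cut k2 (o := o) (x := w) (y := b) (A := B)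
    (B := [a]) k3' (by simp) (k2.adj_symm (k2.adj23 hw2))
  have hw3 : T₃ a b w := m7 a b w hw2 (by simp)
  have m3' : IsLink T₃ o [a, w, b] := by
    have : IsLink T₃ o ([w, b] ++ [a]) := by simpa using m3
    simpa using this.rotate
  have ht := tet m2 m3' (m2.swp23 hw3)
  have ha3 : Sup (EO T₃ o) a := ⟨w, (ht a w).2 (Or.inl (Or.inl ⟨rfl, rfl⟩))⟩
  have hnd := hl.nodup
  have haw : a ≠ w := by
    rintro rfl; simp at hnd
  have hab : a ≠ b := by
    rintro rfl; simp at hnd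
  refine ⟨E₁, E₂, k1, m1, ?_, ?_⟩
  · intro v hv1 hv2
    have hv3 : Sup (EO T₂ o) v := by
      obtain ⟨u, hu⟩ := hv2
      exact ⟨u, (m4 v u).2 (Or.inl hu)⟩
    rcases k5 v hv1 hv3 with rfl | h
    · rcases m5 v hv2 ha3 with h | h
      · exact h
      · exact absurd h hab
    · exact h
  · intro u v
    rw [k4, m4, ht]
    have e1 : Ed a w u v → E₁ u v := by
      rintro (⟨rfl, rfl⟩ | ⟨rfl, rfl⟩)
      · exact k6
      · exact (k1.gph).1 _ _ k6
    have e2 : Ed w b u v → E₂ u v := by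
      rintro (⟨rfl, rfl⟩ | ⟨rfl, rfl⟩)
      · exact m6
      · exact (m1.gph).1 _ _ m6
    tauto

theorem disc_peel {a b : V} {l : List V} {E : V → V → Prop} (h : Disc (a :: l ++ [b]) E)
    (hl : l ≠ []) :
    (∃ w E', w ∉ a :: l ++ [b] ∧ Disc (w :: a :: l ++ [b]) E' ∧
      (∀ u v, E u v ↔ E' u v ∨ Ed a b u v) ∧ ¬ E' a b) ∨
    (∃ A x B E₁ E₂, l = A ++ x :: B ∧ Disc (a :: A ++ [x]) E₁ ∧ Disc (x :: B ++ [b]) E₂ ∧
      (∀ v, Sup E₁ v → Sup E₂ v → v = x) ∧ (∀ u v, E u v ↔ E₁ u v ∨ E₂ u v ∨ Ed a b u v)) := by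
  rcases h with ⟨a', b', h1, h2, rfl⟩ | ⟨T, o, h1, h2, rfl⟩
  · have := congrArg List.length h2
    have hl' := List.length_pos_iff.2 hl
    simp only [List.cons_append, List.length_cons, List.length_append, List.length_nil] at this
    omega
  · obtain ⟨w, w1, w2, w3⟩ := peel h1 h2
    rcases w3 with w3 | ⟨w3, T', t1, t2, t3, t4⟩
    · obtain ⟨d1, d2, d3⟩ := h1.distinct w2
      have hwl : w ∈ l := by
        simp only [List.cons_append, List.mem_cons, List.mem_append, List.not_mem_nil,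
          or_false] at w3
        rcases w3 with h | h | h
        · exact absurd h d3
        · exact h
        · exact absurd h.symm d2
      obtain ⟨A, B, rfl⟩ := List.append_of_mem hwl
      obtain ⟨E₁, E₂, k1, k2, k3, k4⟩ := disc_apex h1 h2 w2
      exact Or.inr ⟨A, w, B, E₁, E₂, rfl, k1, k2, k3, k4⟩
    · exact Or.inl ⟨w, EO T' o, w3, Or.inr ⟨T', o, t1, by simpa using t2, rfl⟩, t3, t4⟩

theorem discAPI (V : Type*) : DiscAPI (Disc (V := V)) where
  gph := fun _ _ h => h.gph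
  nd := fun _ _ h => h.nodup
  len := by
    rintro l E (⟨a', b', h1, rfl, rfl⟩ | ⟨T, o, h1, h2, rfl⟩)
    · simp
    · have := h2.len; omega
  fin := fun _ _ h => h.finite
  two := fun _ _ _ h => disc_two h
  adj := fun _ _ _ _ h => disc_adj h
  rot := fun _ _ _ h => h.rotate
  rev := fun _ _ h => h.reverse
  cut := fun _ _ _ _ _ h h1 h2 h3 => disc_cut h h1 h2 h3
  peel := fun _ _ _ _ h h1 => disc_peel h h1

/-- the recursion over discs, for spheres with a removed vertex -/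
theorem disc_rec {V : Type*} {PD : List V → (V → V → Prop) → Prop}
    {PF : List V → List V → (V → V → Prop) → Prop} (hc : DiscClosed PD PF)
    {T : V → V → V → Prop} (hT : IsSph T) {o : V} {l : List V} (hl : IsLink T o l) :
    PD l (EO T o) :=
  disc_rec_abs (discAPI V) hc (Or.inr ⟨T, o, hT, hl, rfl⟩)

end Pool.Agent.Lib.MP_d86530_co
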