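import Pool.Agent.Lib.MP_d86530_co.SphGlue
import Pool.Agent.Lib.MP_d86530_co.SphK4

/-! # The cone over the outer face: a new vertex `none` joined to the corners of a face -/

set_option autoImplicit false

namespace Pool.Agent.Lib.MP_d86530_co

open Relation

variable {W : Type*} {T : W → W → W → Prop}

/-- the complex `T` on the type `Option W` -/
def emb (T : W → W → W → Prop) (x y z : Option W) : Prop :=
  ∃ a b c, x = some a ∧ y = some b ∧ z = some c ∧ T a b c

@[simp] theorem emb_some {a b c : W} : emb T (some a) (some b) (some c) ↔ T a b c := by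
  constructor
  · rintro ⟨a', b', c', h1, h2, h3, h⟩
    rw [Option.some.injEq] at h1 h2 h3
    subst h1 h2 h3
    exact h
  · intro h
    exact ⟨a, b, c, rfl, rfl, rfl, h⟩

theorem vert_emb : Vert (emb T) = some '' Vert T := by
  ext x
  constructor
  · rintro ⟨y, z, a, b, c, rfl, rfl, rfl, h⟩
    exact ⟨a, ⟨b, c, h⟩, rfl⟩
  · rintro ⟨a, ⟨b, c, h⟩, rfl⟩
    exact ⟨some b, some c, emb_some.2 h⟩

theorem adj_emb {a b : W} : Adj3 (emb T) (some a) (some b) ↔ Adj3 T a b := by
  constructor
  · rintro ⟨z, a', b', c, h1, h2, rfl, h⟩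
    rw [Option.some.injEq] at h1 h2
    subst h1 h2
    exact ⟨c, h⟩
  · rintro ⟨c, h⟩
    exact ⟨some c, emb_some.2 h⟩

theorem isSph_emb (h : IsSph T) : IsSph (emb T) := by
  refine ⟨?_, ?_, ?_, ?_, ?_, ?_, ?_, ?_, ?_⟩
  · rintro x y z ⟨a, b, c, rfl, rfl, rfl, k⟩
    exact emb_some.2 (h.rot k)
  · rintro x y z ⟨a, b, c, rfl, rfl, rfl, k⟩
    exact emb_some.2 (h.swp k)
  · rintro x y z ⟨a, b, c, rfl, rfl, rfl, k⟩ e
    exact h.ne k (Option.some.inj e)
  · rw [vert_emb]
    exact h.fin.image _
  · obtain ⟨a, b, c, k⟩ := h.inh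
    exact ⟨some a, some b, some c, emb_some.2 k⟩
  · rintro x y z ⟨a, b, c, rfl, rfl, rfl, k⟩
    obtain ⟨w, hw, k1, k2⟩ := h.opp k
    refine ⟨some w, fun e => hw (Option.some.inj e), emb_some.2 k1, ?_⟩
    rintro w' ⟨a', b', c', h1, h2, rfl, k'⟩
    rw [Option.some.injEq] at h1 h2
    subst h1 h2
    rcases k2 c' k' with e | e
    · exact Or.inl (by rw [e])
    · exact Or.inr (by rw [e])
  · rintro v a a' b b' ⟨v₀, a₀, a₀', rfl, rfl, rfl, k⟩ ⟨v₁, b₀, b₀', e, rfl, rfl, k'⟩
    rw [Option.some.injEq] at e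
    subst e
    exact (h.link k k').lift some fun x y hxy => emb_some.2 hxy
  · intro x y hx hy
    rw [vert_emb] at hx hy
    obtain ⟨x₀, hx, rfl⟩ := hx
    obtain ⟨y₀, hy, rfl⟩ := hy
    exact (h.conn hx hy).lift some fun x y hxy => adj_emb.2 hxy
  · intro g hs hg
    obtain ⟨f, hf⟩ := h.coh (fun x y => g (some x) (some y)) (fun x y => hs _ _)
      (fun x y z k => hg _ _ _ (emb_some.2 k))
    refine ⟨fun o => o.elim 0 f, ?_⟩
    rintro x y z ⟨a, b, c, rfl, rfl, rfl, k⟩
    exact hf a b c k

/-- the cone over the face `a b c` -/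
def cone (T : W → W → W → Prop) (a b c : W) : Option W → Option W → Option W → Prop :=
  glue (emb T) (K4 (some a) (some b) (some c) none) (some a) (some b) (some c)

section

variable {a b c : W}

theorem cone_aux (h : IsSph T) (ht : T a b c) :
    IsSph (K4 (some a) (some b) (some c) none) ∧ K4 (some a) (some b) (some c) none
      (some a) (some b) (some c) ∧ (∀ x, x ∈ Vert (emb T) →
        x ∈ Vert (K4 (some a) (some b) (some c) none) → x = some a ∨ x = some b ∨ x = some c) := by
  obtain ⟨h1, h2, h3⟩ := h.distinct ht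
  refine ⟨isSph_K4 (by simpa using h1) (by simpa using h3.symm) (by simp) (by simpa using h2)
    (by simp) (by simp), Or.inl (tri_self _ _ _), ?_⟩
  intro x hx hx'
  rw [vert_K4] at hx'
  rw [vert_emb] at hx
  obtain ⟨x₀, -, rfl⟩ := hx
  rcases hx' with e | e | e | e
  · exact Or.inl e
  · exact Or.inr (Or.inl e)
  · exact Or.inr (Or.inr e)
  · exact absurd e (by simp)

theorem isSph_cone (h : IsSph T) (ht : T a b c) : IsSph (cone T a b c) := by
  obtain ⟨h1, h2, h3⟩ := cone_aux h ht
  exact isSph_glue (isSph_emb h) h1 (emb_some.2 ht) h2 h3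

theorem cone_none (x y : Option W) : cone T a b c none x y ↔
    (x = some a ∧ y = some b) ∨ (x = some b ∧ y = some a) ∨ (x = some b ∧ y = some c) ∨
      (x = some c ∧ y = some b) ∨ (x = some c ∧ y = some a) ∨ (x = some a ∧ y = some c) := by
  unfold cone glue K4 Tri emb
  constructor
  · rintro ⟨h, -⟩
    simp only [reduceCtorEq, false_and, exists_false, false_or, true_and, or_false] at h
    tauto
  · intro h
    refine ⟨Or.inr ?_, ?_⟩
    · simp only [reduceCtorEq, false_and, false_or, true_and, or_false]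
      tauto
    · simp only [reduceCtorEq, false_and, or_false, not_false_eq_true]

theorem adj_cone_some (h : IsSph T) (ht : T a b c) (u v : W) :
    Adj3 (cone T a b c) (some u) (some v) ↔ Adj3 T u v := by
  obtain ⟨h1, h2, h3⟩ := cone_aux h ht
  unfold cone
  rw [adj_glue (isSph_emb h) h1 (emb_some.2 ht) h2 h3, adj_emb]
  constructor
  · rintro (k | k)
    · exact k
    · obtain ⟨z, hz⟩ := k
      have e : ∀ t : W, (some t : Option W) = some a ∨ (some t : Option W) = some b ∨
          (some t : Option W) = some c ∨ (some t : Option W) = none → t = a ∨ t = b ∨ t = c := by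
        intro t ht
        simpa using ht
      have hu : u = a ∨ u = b ∨ u = c := by
        apply e
        have : (some u : Option W) ∈ Vert (K4 (some a) (some b) (some c) none) := ⟨_, _, hz⟩
        rw [vert_K4] at this
        exact this
      have hv : v = a ∨ v = b ∨ v = c := by
        apply e
        have : (some v : Option W) ∈ Vert (K4 (some a) (some b) (some c) none) := ⟨_, _, h1.rot hz⟩
        rw [vert_K4] at this
        exact this
      have huv : u ≠ v := fun k => h1.ne hz (by rw [k])
      rcases hu with rfl | rfl | rfl <;> rcases hv with rfl | rfl | rfl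
      · exact absurd rfl huv
      · exact ⟨_, ht⟩
      · exact ⟨_, h.swp23 ht⟩
      · exact ⟨_, h.swp ht⟩
      · exact absurd rfl huv
      · exact ⟨_, h.rot ht⟩
      · exact ⟨_, h.rot2 ht⟩
      · exact ⟨_, h.swp13 ht⟩
      · exact absurd rfl huv
  · intro k
    exact Or.inl k

theorem vert_cone (h : IsSph T) (ht : T a b c) :
    Vert (cone T a b c) = insert none (some '' Vert T) := by
  obtain ⟨h1, h2, h3⟩ := cone_aux h ht
  unfold cone
  rw [vert_glue (isSph_emb h) h1 (emb_some.2 ht) h2 h3, vert_K4, vert_emb]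
  ext x
  simp only [Set.mem_union, Set.mem_insert_iff, Set.mem_singleton_iff]
  constructor
  · rintro (k | k | k | k | k)
    · exact Or.inr k
    · exact Or.inr ⟨a, IsSph.vert1 ht, k.symm⟩
    · exact Or.inr ⟨b, h.vert2 ht, k.symm⟩
    · exact Or.inr ⟨c, h.vert3 ht, k.symm⟩
    · exact Or.inl k
  · rintro (k | k)
    · simp [k]
    · exact Or.inl k

end

end Pool.Agent.Lib.MP_d86530_co
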