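import Mathlib

set_option autoImplicit false

namespace Pool.Agent.Lib.MP_d86530_co

/-! ### Interface between the geometry of discs and the level order

`PD rs E`: the disc with boundary path `rs` and edges `E` has a good order.
`PF Q R E`: the disc with boundary cycle `Q ++ R.reverse` has a good pair of orders (near and far).
The vertices of a disc are `Sup E`; all `E` are symmetric and irreflexive.
-/

/-- the edge `a b` -/
def Ed {W : Type*} (a b u v : W) : Prop := (u = a ∧ v = b) ∨ (u = b ∧ v = a)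

/-- the vertices of a graph -/
def Sup {W : Type*} (E : W → W → Prop) (x : W) : Prop := ∃ y, E x y

/-- symmetric and irreflexive -/
def Gph {W : Type*} (E : W → W → Prop) : Prop := (∀ u v, E u v → E v u) ∧ ∀ u, ¬ E u u

/-- closure properties of the good orders of discs -/
structure DiscClosed {W : Type*} (PD : List W → (W → W → Prop) → Prop)
    (PF : List W → List W → (W → W → Prop) → Prop) : Prop where
  edge : ∀ a b, a ≠ b → PD [a, b] (Ed a b)
  dc : ∀ (a b x : W) (l m : List W) (E₁ E₂ E : W → W → Prop),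
    (a :: l ++ x :: m ++ [b]).Nodup → Gph E₁ → Gph E₂ → Gph E →
    PD (a :: l ++ [x]) E₁ → PD (x :: m ++ [b]) E₂ → (∀ v, Sup E₁ v → Sup E₂ v → v = x) →
    (∀ u v, E u v ↔ E₁ u v ∨ E₂ u v ∨ Ed a b u v) → PD (a :: l ++ x :: m ++ [b]) E
  di : ∀ (w a b : W) (l : List W) (E₁ E : W → W → Prop),
    (w :: a :: l ++ [b]).Nodup → Gph E₁ → Gph E → PF [w] (a :: l ++ [b]) E₁ →
    ¬ E₁ a b → (∀ u v, E u v ↔ E₁ u v ∨ Ed a b u v) → PD (a :: l ++ [b]) E
  f0 : ∀ z c, z ≠ c → PF [z] [c] (Ed z c)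
  fd : ∀ (Q : List W) (c : W) (E : W → W → Prop), (c :: Q.reverse).Nodup → Gph E →
    2 ≤ Q.length → PD (c :: Q.reverse) E → PF Q [c] E
  fb : ∀ (z a b : W) (l : List W) (E₁ E : W → W → Prop),
    (z :: a :: l ++ [b]).Nodup → Gph E₁ → Gph E → PD (a :: l ++ [b]) E₁ → ¬ Sup E₁ z →
    (∀ u v, E u v ↔ E₁ u v ∨ Ed z a u v ∨ Ed z b u v) → PF [z] (a :: l ++ [b]) E
  fc : ∀ (z a b x : W) (l m : List W) (E₁ E₂ E : W → W → Prop),
    (z :: a :: l ++ x :: m ++ [b]).Nodup → Gph E₁ → Gph E₂ → Gph E →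
    PF [z] (a :: l ++ [x]) E₁ → PF [z] (x :: m ++ [b]) E₂ → E₁ x z → E₂ x z →
    (∀ v, Sup E₁ v → Sup E₂ v → v = x ∨ v = z) →
    (∀ u v, E u v ↔ E₁ u v ∨ E₂ u v) → PF [z] (a :: l ++ x :: m ++ [b]) E
  /-- here `R = R₁ ++ x :: m = R' ++ [b]` has at least two elements; if `m = []` then
  `x = b` and `E₂ = Ed v b` -/
  fa : ∀ (Q : List W) (q v x b : W) (R₁ m R' : List W) (E₁ E₂ E : W → W → Prop),
    R₁ ++ x :: m = R' ++ [b] → R' ≠ [] → (Q ++ q :: v :: (R' ++ [b])).Nodup →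
    Gph E₁ → Gph E₂ → Gph E →
    PF (Q ++ [q, v]) (R₁ ++ [x]) E₁ → PF [v] (x :: m) E₂ → E₁ x v → E₂ x v →
    (∀ u, Sup E₁ u → Sup E₂ u → u = x ∨ u = v) → ¬ E₁ q b → ¬ E₂ q b →
    (∀ u w, E u w ↔ E₁ u w ∨ E₂ u w ∨ Ed q b u w) → PF (Q ++ [q]) (R' ++ [b]) E

end Pool.Agent.Lib.MP_d86530_co
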