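import Pool.Agent.Lib.MP_d86530_co.Basic
import Pool.Agent.Lib.MP_d86530_co.Lev.Iface

set_option autoImplicit false

namespace Pool.Agent.Lib.MP_d86530_co

open Relation

variable {V : Type*} {T T₁ T₂ : V → V → V → Prop}

/-- the link of the vertex `o` is the cycle `l` -/
structure IsLink (T : V → V → V → Prop) (o : V) (l : List V) : Prop where
  nodup : l.Nodup
  len : 3 ≤ l.length
  ch : l.IsChain (T o)
  close : ∀ b ∈ l.getLast?, ∀ a ∈ l.head?, T o b a

theorem IsLink.rotate {o : V} {A B : List V} (h : IsLink T o (A ++ B)) : IsLink T o (B ++ A) := by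
  rcases A with _ | ⟨a, A⟩
  · simpa using h
  rcases B with _ | ⟨b, B⟩
  · simpa using h
  obtain ⟨h1, h2, h3, h4⟩ := h
  refine ⟨(List.perm_append_comm.nodup_iff).1 h1, by simp at h2 ⊢; omega, ?_, ?_⟩
  · rw [List.isChain_append] at h3 ⊢
    refine ⟨h3.2.1, h3.1, fun x hx y hy => ?_⟩
    refine h4 x ?_ y ?_
    · rw [List.getLast?_append_of_ne_nil _ (by simp)]
      exact hx
    · simpa using hy
  · intro x hx y hy
    rw [List.isChain_append] at h3
    refine h3.2.2 x ?_ y ?_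
    · rw [List.getLast?_append_of_ne_nil _ (by simp)] at hx
      exact hx
    · simpa using hy

theorem IsLink.reverse (hT : IsSph T) {o : V} {l : List V} (h : IsLink T o l) :
    IsLink T o l.reverse := by
  obtain ⟨h1, h2, h3, h4⟩ := h
  refine ⟨List.nodup_reverse.2 h1, by simpa using h2, ?_, ?_⟩
  · rw [List.isChain_reverse]
    exact h3.imp fun x y hxy => hT.swp23 hxy
  · intro x hx y hy
    simp only [List.getLast?_reverse, List.head?_reverse] at hx hy
    exact hT.swp23 (h4 y hy x hx)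

/-- rotate the link to start at a given member -/
theorem IsLink.start {o : V} {l : List V} (h : IsLink T o l) {x : V} (hx : x ∈ l) :
    ∃ p M q, IsLink T o (x :: p :: M ++ [q]) ∧ (∀ v, v ∈ l ↔ v ∈ x :: p :: M ++ [q]) := by
  obtain ⟨A, B, rfl⟩ := List.append_of_mem hx
  have h' : IsLink T o (x :: (B ++ A)) := by simpa using h.rotate
  have hm : ∀ v, v ∈ A ++ x :: B ↔ v ∈ x :: (B ++ A) := by
    intro v; simp only [List.mem_append, List.mem_cons]; tauto
  have hl := h'.len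
  rcases hC : B ++ A with _ | ⟨p, M⟩
  · rw [hC] at hl; simp at hl
  · rw [hC] at h' hm hl
    rcases List.eq_nil_or_concat M with rfl | ⟨M', q, rfl⟩
    · simp at hl
    · exact ⟨p, M', q, by simpa using h', by simpa using hm⟩

theorem IsLink.facts {o x p q : V} {M : List V} (h : IsLink T o (x :: p :: M ++ [q])) :
    T o x p ∧ T o q x ∧ p ≠ q ∧ x ≠ p ∧ x ≠ q := by
  obtain ⟨h1, h2, h3, h4⟩ := h
  refine ⟨?_, h4 q (by rw [List.getLast?_append_of_ne_nil _ (by simp)]; simp) x (by simp),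
    ?_, ?_, ?_⟩
  · simp only [List.cons_append, List.isChain_cons_cons] at h3
    exact h3.1
  · rintro rfl; simp at h1
  · rintro rfl; simp at h1
  · rintro rfl; simp at h1

/-- faces at `o` stay in the link -/
theorem IsLink.mem_of (hT : IsSph T) {o : V} {l : List V} (h : IsLink T o l) {x y : V}
    (hx : x ∈ l) (hxy : T o x y) : y ∈ l := by
  obtain ⟨p, M, q, h', hm⟩ := h.start hx
  obtain ⟨f1, f2, f3, -, -⟩ := h'.facts
  rw [hm]
  rcases hT.opp_uniq f1 (hT.swp23 f2) f3 hxy with rfl | rfl <;> simp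

theorem IsLink.cen (hT : IsSph T) {o : V} {l : List V} (h : IsLink T o l) : ∀ x ∈ l, Adj3 T o x := by
  intro x hx
  obtain ⟨p, M, q, h', hm⟩ := h.start hx
  exact ⟨p, h'.facts.1⟩

theorem IsLink.ne (hT : IsSph T) {o : V} {l : List V} (h : IsLink T o l) : ∀ x ∈ l, x ≠ o :=
  fun x hx => (hT.adj_ne (h.cen hT x hx)).symm

/-- the link contains all neighbours of `o` -/
theorem IsLink.all (hT : IsSph T) {o : V} {l : List V} (h : IsLink T o l) {y : V}
    (hy : Adj3 T o y) : y ∈ l := by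
  obtain ⟨z, hz⟩ := hy
  have hl := h.len
  rcases l with _ | ⟨x, l⟩
  · simp at hl
  · obtain ⟨p, M, q, h', hm⟩ := h.start (x := x) (by simp)
    have key : ∀ t, ReflTransGen (T o) x t → t ∈ x :: l := by
      intro t ht
      induction ht with
      | refl => simp
      | tail _ hst ih => exact h.mem_of hT ih hst
    exact key y (hT.link h'.facts.1 hz)

/-- the faces on a link edge -/
theorem IsLink.nb (hT : IsSph T) {o x p q y : V} {M : List V}
    (h : IsLink T o (x :: p :: M ++ [q])) (hy : T o x y) : y = p ∨ y = q := by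
  obtain ⟨f1, f2, f3, -, -⟩ := h.facts
  exact hT.opp_uniq f1 (hT.swp23 f2) f3 hy

/-- the graph of a complex without the vertex `o` -/
def EO (T : V → V → V → Prop) (o u v : V) : Prop := Adj3 T u v ∧ u ≠ o ∧ v ≠ o

/-- a disc with boundary cycle `l` and edges `E`: one edge, or a sphere without the vertex `o`
whose link is `l` -/
def Disc (l : List V) (E : V → V → Prop) : Prop :=
  (∃ a b, a ≠ b ∧ l = [a, b] ∧ E = Ed a b) ∨
    ∃ (T : V → V → V → Prop) (o : V), IsSph T ∧ IsLink T o l ∧ E = EO T o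

theorem EO.gph (hT : IsSph T) (o : V) : Gph (EO T o) :=
  ⟨fun _ _ h => ⟨hT.adj_symm h.1, h.2.2, h.2.1⟩, fun _ h => hT.adj_ne h.1 rfl⟩

theorem Ed.gph {a b : V} (h : a ≠ b) : Gph (Ed a b) := by
  refine ⟨fun u v h => ?_, fun u h' => ?_⟩
  · rcases h with ⟨rfl, rfl⟩ | ⟨rfl, rfl⟩
    · exact Or.inr ⟨rfl, rfl⟩
    · exact Or.inl ⟨rfl, rfl⟩
  · rcases h' with ⟨rfl, rfl⟩ | ⟨rfl, rfl⟩ <;> exact h rfl

theorem Disc.gph {l : List V} {E : V → V → Prop} (h : Disc l E) : Gph E := by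
  rcases h with ⟨a, b, h1, -, rfl⟩ | ⟨T, o, h1, -, rfl⟩
  · exact Ed.gph h1
  · exact EO.gph h1 o

theorem EO.finite (hT : IsSph T) (o : V) : {p : V × V | EO T o p.1 p.2}.Finite := by
  refine (hT.fin.prod hT.fin).subset ?_
  rintro ⟨u, v⟩ ⟨h, -, -⟩
  exact ⟨(hT.vert_of_adj h).1, (hT.vert_of_adj h).2⟩

theorem Disc.finite {l : List V} {E : V → V → Prop} (h : Disc l E) :
    {p : V × V | E p.1 p.2}.Finite := by
  rcases h with ⟨a, b, h1, -, rfl⟩ | ⟨T, o, h1, -, rfl⟩
  · refine (Set.toFinite {(a, b), (b, a)}).subset ?_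
    rintro ⟨u, v⟩ (⟨h1, h2⟩ | ⟨h1, h2⟩)
    · simp only at h1 h2; simp [h1, h2]
    · simp only at h1 h2; simp [h1, h2]
  · exact EO.finite h1 o

theorem Disc.nodup {l : List V} {E : V → V → Prop} (h : Disc l E) : l.Nodup := by
  rcases h with ⟨a, b, h1, rfl, -⟩ | ⟨T, o, -, h1, -⟩
  · simpa using h1
  · exact h1.nodup

theorem Disc.reverse {l : List V} {E : V → V → Prop} (h : Disc l E) : Disc l.reverse E := by
  rcases h with ⟨a, b, h1, rfl, rfl⟩ | ⟨T, o, h1, h2, rfl⟩
  · refine Or.inl ⟨b, a, h1.symm, by simp, ?_⟩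
    funext u v
    exact propext ⟨fun h => h.symm, fun h => h.symm⟩
  · exact Or.inr ⟨T, o, h1, h2.reverse h1, rfl⟩

theorem Disc.rotate {A B : List V} {E : V → V → Prop} (h : Disc (A ++ B) E) : Disc (B ++ A) E := by
  rcases h with ⟨a, b, h1, h2, rfl⟩ | ⟨T, o, h1, h2, rfl⟩
  · rcases A with _ | ⟨a', A⟩
    · exact Or.inl ⟨a, b, h1, by simpa using h2, rfl⟩
    rcases A with _ | ⟨b', A⟩
    · obtain ⟨rfl, rfl⟩ : a' = a ∧ B = [b] := by simpa using h2
      refine Or.inl ⟨b, a', h1.symm, by simp, ?_⟩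
      funext u v
      exact propext ⟨fun h => h.symm, fun h => h.symm⟩
    · obtain ⟨rfl, rfl, h3⟩ : a' = a ∧ b' = b ∧ A ++ B = [] := by simpa using h2
      obtain ⟨rfl, rfl⟩ := List.append_eq_nil_iff.1 h3
      exact Or.inl ⟨a', b', h1, by simp, rfl⟩
  · exact Or.inr ⟨T, o, h1, h2.rotate, rfl⟩

end Pool.Agent.Lib.MP_d86530_co
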