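import Pool.Agent.Lib.MP_d86530_co.Lev.Cone
import Pool.Agent.Lib.MP_d86530_co.Lev.Link

/-! # The cone over the outer face as a disc with boundary `a, b, c` -/

set_option autoImplicit false

namespace Pool.Agent.Lib.MP_d86530_co

open Relation

variable {W : Type*} {T : W → W → W → Prop} {a b c : W}

theorem cone_link (h : IsSph T) (ht : T a b c) :
    IsLink (cone T a b c) none [some a, some b, some c] := by
  obtain ⟨h1, h2, h3⟩ := h.distinct ht
  refine ⟨?_, by simp, ?_, ?_⟩
  · simp [h1, h2, h3.symm]
  · simp only [List.isChain_cons_cons, List.isChain_singleton, and_true]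
    refine ⟨(cone_none _ _).2 ?_, (cone_none _ _).2 ?_⟩ <;> simp
  · intro x hx y hy
    simp only [List.getLast?_cons_cons, List.getLast?_singleton, Option.mem_def,
      Option.some.injEq, List.head?_cons] at hx hy
    subst hx hy
    exact (cone_none _ _).2 (by simp)

/-- a sphere with a face `a b c` is a disc with boundary `a, b, c` -/
theorem exists_cone (h : IsSph T) (ht : T a b c) :
    ∃ T' : Option W → Option W → Option W → Prop, IsSph T' ∧
      IsLink T' none [some a, some b, some c] ∧
      ∀ u v, Adj3 T u v ↔ EO T' none (some u) (some v) := by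
  refine ⟨cone T a b c, isSph_cone h ht, cone_link h ht, fun u v => ?_⟩
  unfold EO
  rw [adj_cone_some h ht]
  simp

end Pool.Agent.Lib.MP_d86530_co
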