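import Mathlib

/-! # MP_d86530_co, level layout (scheme of helper33): the interface between GEOMETRY and ORDER

`Der k C E`: a derivation of the object `k` with content list `C` and edge relation `E`.

* `D [r_1, ..., r_t]` (`t ≥ 2`): a triangulated disk with boundary cycle `r_1, ..., r_t` and top
  edge `r_1 r_t` (one edge for `t = 2`). `C` lists all vertices of the disk except `r_1`; the
  layout is `r_1 :: C`; it ends with `r_t`.
* `F [q_1, ..., q_p] [r_1, ..., r_j]` (`p, j ≥ 1`): a triangulated disk with boundary cycle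
  `q_1, ..., q_p, r_j, ..., r_1`; `z = q_1`, `c = r_1`. `C` lists all vertices of the disk except
  `z` and `c`. The layout is `z :: c :: C` (far) or `c :: z :: C` (near).
In the layouts `r_1 < r_2 < ... < r_t` and (far or near) `q_p > ... > q_2` are increasing lists
`q_2 < ... < q_p < r_2 < ... < r_j`. -/

set_option autoImplicit false

namespace Pool.Agent.Lib.MP_d86530_co.Lev

/-- the pair `x y` is the pair `a b` (in some order) -/
def Pr {V : Type*} (a b x y : V) : Prop := (x = a ∧ y = b) ∨ (x = b ∧ y = a)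

inductive Kind (V : Type*)
  | D (l : List V)
  | F (Q R : List V)

inductive Der {V : Type*} : Kind V → List V → (V → V → Prop) → Prop
  /-- one edge -/
  | D0 (a b : V) (E : V → V → Prop) (hE : ∀ x y, E x y → Pr a b x y) :
      Der (.D [a, b]) [b] E
  /-- the apex of the top edge `a b` is the boundary vertex `r` -/
  | DC (a b r : V) (A B C₁ C₂ : List V) (E E₁ E₂ : V → V → Prop)
      (h₁ : Der (.D (a :: A ++ [r])) C₁ E₁) (h₂ : Der (.D (r :: B ++ [b])) C₂ E₂)
      (hE : ∀ x y, E x y → E₁ x y ∨ E₂ x y ∨ Pr a b x y) :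
      Der (.D (a :: A ++ r :: B ++ [b])) (C₁ ++ C₂) E
  /-- the apex `w` of the top edge `a b` is an interior vertex -/
  | DI (a b w : V) (A C : List V) (E E₁ : V → V → Prop)
      (h₁ : Der (.F [w] (a :: A ++ [b])) C E₁)
      (hE : ∀ x y, E x y → E₁ x y ∨ Pr a b x y) :
      Der (.D (a :: A ++ [b])) (w :: C) E
  /-- one edge -/
  | F0 (z c : V) (E : V → V → Prop) (hE : ∀ x y, E x y → Pr z c x y) :
      Der (.F [z] [c]) [] E
  /-- the disk with boundary `c, q_p, ..., q_2, z`, layout reversed, `c` moved to the left -/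
  | FD (z c : V) (Q C : List V) (E E₁ : V → V → Prop) (hQ : Q ≠ [])
      (h₁ : Der (.D (c :: Q.reverse ++ [z])) (C ++ [z]) E₁)
      (hE : ∀ x y, E x y → E₁ x y) :
      Der (.F (z :: Q) [c]) C.reverse E
  /-- a face `z c b` on top of a disk with boundary `c, ..., b` -/
  | FB (z c b : V) (A C : List V) (E E₁ : V → V → Prop)
      (h₁ : Der (.D (c :: A ++ [b])) C E₁)
      (hE : ∀ x y, E x y → E₁ x y ∨ Pr z c x y ∨ Pr z b x y) :
      Der (.F [z] (c :: A ++ [b])) C E
  /-- cut at the chord `z r` -/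
  | FC (z r : V) (A B C₁ C₂ : List V) (E E₁ E₂ : V → V → Prop) (hA : A ≠ []) (hB : B ≠ [])
      (h₁ : Der (.F [z] (A ++ [r])) C₁ E₁) (h₂ : Der (.F [z] (r :: B)) C₂ E₂)
      (hE : ∀ x y, E x y → E₁ x y ∨ E₂ x y) :
      Der (.F [z] (A ++ r :: B)) (C₁ ++ C₂) E
  /-- the face `q b v` at the boundary edge `q b`, `v` interior, then cut at the chord `v r` -/
  | FA (q r b v : V) (Q A B C₁ C₂ : List V) (E E₁ E₂ : V → V → Prop)
      (hAB : ¬ (A = [] ∧ B = [])) (hb : (r :: B).getLast? = some b)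
      (h₁ : Der (.F (Q ++ [q, v]) (A ++ [r])) C₁ E₁) (h₂ : Der (.F [v] (r :: B)) C₂ E₂)
      (hE : ∀ x y, E x y → E₁ x y ∨ E₂ x y ∨ Pr q b x y) :
      Der (.F (Q ++ [q]) (A ++ r :: B)) (C₁ ++ C₂) E

end Pool.Agent.Lib.MP_d86530_co.Lev
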