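import Pool.Agent.Lib.MP_d86530_co.SphFlip
import Pool.Agent.Lib.MP_d86530_co.SphSplit
import Pool.Agent.Lib.MP_d86530_co.SphGlue
import Pool.Agent.Lib.MP_d86530_co.SphContr
import Pool.Agent.Lib.MP_d86530_co.Lev.Link

set_option autoImplicit false

namespace Pool.Agent.Lib.MP_d86530_co

open Relation

variable {V : Type*} {T T₁ T₂ : V → V → V → Prop}

/-- the link is a triangle and its third side is a face: a tetrahedron -/
theorem tet (hT : IsSph T) {o a b w : V} (hl : IsLink T o [a, b, w]) (hw : T a b w) (u v : V) :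
    EO T o u v ↔ Ed a b u v ∨ Ed b w u v ∨ Ed a w u v := by
  obtain ⟨hn, -, hc, hcl⟩ := hl
  simp only [List.isChain_cons_cons, List.IsChain.singleton, and_true] at hc
  obtain ⟨c1, c2⟩ := hc
  have c3 : T o w a := hcl w (by simp) a (by simp)
  have hs : ∀ x ∈ Vert T, x = o ∨ x = a ∨ x = b ∨ x = w := by
    have key : ∀ x, ReflTransGen (Adj3 T) o x → x = o ∨ x = a ∨ x = b ∨ x = w := by
      intro x hx
      induction hx with
      | refl => exact Or.inl rfl
      | @tail s t _ hst ih =>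
        rcases ih with e | e | e | e
        · rcases hT.sphContr_star c1 (hT.swp23 c3) c2 (e ▸ hst) with h | h | h <;> simp [h]
        · rcases hT.sphContr_star (hT.swp c1) (hT.rot2 c3) hw (e ▸ hst) with h | h | h <;>
            simp [h]
        · rcases hT.sphContr_star (hT.rot2 c1) (hT.swp c2) (hT.swp hw) (e ▸ hst) with h | h | h <;>
            simp [h]
        · rcases hT.sphContr_star (hT.swp c3) (hT.rot2 c2) (hT.rot2 hw) (e ▸ hst) with h | h | h <;>
            simp [h]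
    exact fun x hx => key x (hT.conn (IsSph.vert1 c1) hx)
  obtain ⟨d1, d2, d3⟩ := hT.distinct hw
  obtain ⟨e1, e2, e3⟩ := hT.distinct c1
  obtain ⟨f1, f2, f3⟩ := hT.distinct c2
  constructor
  · rintro ⟨h1, h2, h3⟩
    have hu := (hs u (hT.vert_of_adj h1).1).resolve_left h2
    have hv := (hs v (hT.vert_of_adj h1).2).resolve_left h3
    have huv := hT.adj_ne h1
    unfold Ed
    rcases hu with rfl | rfl | rfl <;> rcases hv with rfl | rfl | rfl <;> simp_all
  · have a1 : Adj3 T a b := ⟨w, hw⟩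
    have a2 : Adj3 T b w := hT.adj23 hw
    have a3 : Adj3 T a w := hT.adj_symm (hT.adj31 hw)
    rintro ((⟨rfl, rfl⟩ | ⟨rfl, rfl⟩) | (⟨rfl, rfl⟩ | ⟨rfl, rfl⟩) | (⟨rfl, rfl⟩ | ⟨rfl, rfl⟩))
    · exact ⟨a1, e1.symm, e3⟩
    · exact ⟨hT.adj_symm a1, e3, e1.symm⟩
    · exact ⟨a2, e3, f3⟩
    · exact ⟨hT.adj_symm a2, f3, e3⟩
    · exact ⟨a3, e1.symm, f3⟩
    · exact ⟨hT.adj_symm a3, f3, e1.symm⟩

/-- a non-closing pair of a nodup list -/
theorem nodup_ends {a b : V} {l' : List V} (hl : (a :: l' ++ [b]).Nodup) (h3 : l' ≠ [])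
    {x y : V} {A B : List V} (h : a :: l' ++ [b] = A ++ x :: y :: B) :
    ¬ (x = a ∧ y = b) ∧ ¬ (x = b ∧ y = a) := by
  have hn := hl
  rw [h] at hn
  rcases A with _ | ⟨a', A⟩
  · simp only [List.nil_append, List.cons_append, List.cons.injEq] at h
    obtain ⟨rfl, h⟩ := h
    have hab : a ≠ b := by rintro rfl; simp at hl
    refine ⟨?_, fun h' => hab h'.1⟩
    rintro ⟨-, rfl⟩
    rcases l' with _ | ⟨c, l'⟩
    · exact h3 rfl
    · simp only [List.cons_append, List.cons.injEq] at h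
      obtain ⟨rfl, -⟩ := h
      simp at hl
  · simp only [List.cons_append, List.cons.injEq] at h
    obtain ⟨rfl, h⟩ := h
    refine ⟨?_, ?_⟩
    · rintro ⟨rfl, rfl⟩
      simp at hn
    · rintro ⟨rfl, rfl⟩
      simp at hn

/-- removal of the boundary edge `a b` of a disc -/
theorem peel (hT : IsSph T) {o a b : V} {l' : List V} (hl : IsLink T o (a :: l' ++ [b])) :
    ∃ w, w ≠ o ∧ T a b w ∧ (w ∈ a :: l' ++ [b] ∨ (w ∉ a :: l' ++ [b] ∧
      ∃ T', IsSph T' ∧ IsLink T' o (w :: (a :: l' ++ [b])) ∧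
        (∀ u v, EO T o u v ↔ EO T' o u v ∨ Ed a b u v) ∧ ¬ EO T' o a b)) := by
  have c : T o b a := hl.close b (by rw [List.getLast?_append_of_ne_nil _ (by simp)]; simp) a
    (by simp)
  have c1 : T a b o := hT.rot2 (hT.swp23 c) |> fun h => hT.rot2 h
  obtain ⟨w, w1, w2, w3⟩ := hT.opp c1
  refine ⟨w, w1, w2, ?_⟩
  by_cases hw : w ∈ a :: l' ++ [b]
  · exact Or.inl hw
  refine Or.inr ⟨hw, flip T a b o w, ?_⟩
  have hn : ¬ Adj3 T o w := fun h => hw (hl.all hT h)
  have h' := isSph_flip hT c1 w2 w1.symm hn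
  have ha := adj_flip hT c1 w2 w1.symm hn
  obtain ⟨d1, d2, d3⟩ := hT.distinct c1
  obtain ⟨e1, e2, e3⟩ := hT.distinct w2
  have hl3 : l' ≠ [] := by
    have := hl.len
    rintro rfl
    simp at this
  refine ⟨h', ⟨?_, ?_, ?_, ?_⟩, ?_, ?_⟩
  · exact List.nodup_cons.2 ⟨hw, hl.nodup⟩
  · have := hl.len
    simp only [List.length_cons] at this ⊢
    omega
  · have : List.IsChain (flip T a b o w o) (a :: l' ++ [b]) := by
      rw [List.isChain_iff_forall_rel_of_append_cons_cons]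
      intro x y A B hAB
      have hxy := (List.isChain_iff_forall_rel_of_append_cons_cons.1 hl.ch) hAB
      obtain ⟨g1, g2⟩ := nodup_ends hl.nodup hl3 hAB
      refine Or.inl ⟨hxy, ?_, ?_⟩
      · rintro (⟨k1, k2, k3⟩ | ⟨k1, k2, k3⟩ | ⟨k1, k2, k3⟩ | ⟨k1, k2, k3⟩ | ⟨k1, k2, k3⟩ |
          ⟨k1, k2, k3⟩)
        · exact d3 k1
        · exact d3 k1
        · exact d2 k1.symm
        · exact d2 k1.symm
        · exact g1 ⟨k2, k3⟩
        · exact g2 ⟨k2, k3⟩
      · intro k
        rcases tri_mem k with k | k | k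
        · exact d3 k
        · exact d2 k.symm
        · exact w1 k.symm
    simp only [List.cons_append, List.isChain_cons_cons] at this ⊢
    exact ⟨Or.inr (Or.inl (tri_self o w a)), this⟩
  · intro x hx y hy
    have hx' : x = b := by
      rw [← List.cons_append, List.getLast?_append_of_ne_nil _ (by simp)] at hx
      simpa using hx.symm
    have hy' : y = w := by simpa using hy.symm
    rw [hx', hy']
    exact Or.inr (Or.inr (by unfold Tri; simp))
  · intro u v
    unfold EO Ed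
    rw [ha]
    constructor
    · rintro ⟨h1, h2, h3⟩
      by_cases k1 : u = a ∧ v = b
      · exact Or.inr (Or.inl k1)
      by_cases k2 : u = b ∧ v = a
      · exact Or.inr (Or.inr k2)
      exact Or.inl ⟨Or.inl ⟨h1, k1, k2⟩, h2, h3⟩
    · rintro (⟨h1 | h1 | h1, h2, h3⟩ | ⟨rfl, rfl⟩ | ⟨rfl, rfl⟩)
      · exact ⟨h1.1, h2, h3⟩
      · exact absurd h1.1 h2
      · exact absurd h1.2 h3
      · exact ⟨IsSph.adj12 c1, d3.symm, d2⟩
      · exact ⟨hT.adj_symm (IsSph.adj12 c1), d2, d3.symm⟩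
  · rintro ⟨h1, h2, h3⟩
    rw [ha] at h1
    rcases h1 with h1 | h1 | h1
    · exact h1.2.1 ⟨rfl, rfl⟩
    · exact h2 h1.1
    · exact h3 h1.2

theorem chain_in {S : V → V → V → Prop} {o : V} {P : V → Prop} (hS : IsSph S)
    (tr : ∀ v ∈ Vert S, P v → ∀ t, T o v t → S o v t) : ∀ (L : List V) (a : V),
    List.IsChain (T o) (a :: L) → (∀ v ∈ a :: L, P v) → a ∈ Vert S → ∀ v ∈ a :: L, v ∈ Vert S := by
  intro L
  induction L with
  | nil => intro a _ _ ha v hv; simp only [List.mem_singleton] at hv; exact hv ▸ ha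
  | cons b L ih =>
    intro a hc hP ha v hv
    rw [List.isChain_cons_cons] at hc
    rcases List.mem_cons.1 hv with rfl | hv
    · exact ha
    · exact ih b hc.2 (fun v hv => hP v (List.mem_cons_of_mem _ hv))
        (hS.vert3 (tr a ha (hP a (by simp)) b hc.1)) v hv

/-- the two sides of a separating triangle `o x y` -/
theorem cut_aux (hT : IsSph T) {o x y : V} {A B : List V} (hl : IsLink T o (x :: A ++ y :: B))
    (hB : B ≠ []) (h₁ : IsSph T₁) (h₂ : IsSph T₂) (ha : T₁ o x y) (hb : T₂ o x y)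
    (hV : ∀ v, v ∈ Vert T₁ → v ∈ Vert T₂ → v = o ∨ v = x ∨ v = y)
    (hg : ∀ u v w, T u v w ↔ glue T₁ T₂ o x y u v w) {a : V} {A' : List V} (hA : A = a :: A')
    (ha1 : a ∈ Vert T₁) :
    IsLink T₁ o (x :: A ++ [y]) ∧ IsLink T₂ o (x :: y :: B) ∧ (∀ v ∈ B, v ∈ Vert T₂) := by
  have hno : ¬ T o x y := fun h => ((hg _ _ _).1 h).2 (tri_self _ _ _)
  have hnd := hl.nodup
  have hne := hl.ne hT
  have hcl : ∀ b ∈ B.getLast?, T o b x := by
    intro b hb'
    refine hl.close b ?_ x (by simp)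
    rw [List.getLast?_append_of_ne_nil _ (by simp)]
    rw [List.getLast?_cons]
    simp only [Option.mem_def] at hb' ⊢
    rw [hb']
    rfl
  have hch := hl.ch
  have hch' : List.IsChain (T o) (x :: A ++ [y]) ∧ List.IsChain (T o) (y :: B) := by
    rw [← List.isChain_split]; exact hch
  have hPA : ∀ v ∈ A, v ≠ o ∧ v ≠ x ∧ v ≠ y := by
    intro v hv
    refine ⟨hne v (by simp [hv]), ?_, ?_⟩
    · rintro rfl
      simp [hv] at hnd
    · rintro rfl
      simp only [List.cons_append, List.nodup_cons, List.nodup_append, List.mem_cons] at hnd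
      exact hnd.2.2.2 v hv v (Or.inl rfl) rfl
  have hPB : ∀ v ∈ B, v ≠ o ∧ v ≠ x ∧ v ≠ y := by
    intro v hv
    refine ⟨hne v (by simp [hv]), ?_, ?_⟩
    · rintro rfl
      simp [hv] at hnd
    · rintro rfl
      simp only [List.cons_append, List.nodup_cons, List.nodup_append, List.mem_cons] at hnd
      exact hnd.2.2.1.1 hv
  have hAB : ∀ v ∈ A, v ∉ B := by
    intro v hv hv'
    simp only [List.cons_append, List.nodup_cons, List.nodup_append, List.mem_cons] at hnd
    exact hnd.2.2.2 v hv v (Or.inr hv') rfl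
  have tr1 : ∀ v ∈ Vert T₁, (v ≠ o ∧ v ≠ x ∧ v ≠ y) → ∀ t, T o v t → T₁ o v t := by
    rintro v hv ⟨p1, p2, p3⟩ t ht
    rcases ((hg _ _ _).1 ht).1 with h | h
    · exact h
    · rcases hV v hv (h₂.vert2 h) with e | e | e
      · exact absurd e p1
      · exact absurd e p2
      · exact absurd e p3
  have tr2 : ∀ v ∈ Vert T₂, (v ≠ o ∧ v ≠ x ∧ v ≠ y) → ∀ t, T o v t → T₂ o v t := by
    rintro v hv ⟨p1, p2, p3⟩ t ht
    rcases ((hg _ _ _).1 ht).1 with h | h
    · rcases hV v (h₁.vert2 h) hv with e | e | e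
      · exact absurd e p1
      · exact absurd e p2
      · exact absurd e p3
    · exact h
  have hA1 : ∀ v ∈ A, v ∈ Vert T₁ := by
    rw [hA]
    refine chain_in h₁ tr1 A' a ?_ (by rw [← hA]; exact hPA) ha1
    rw [← hA]
    have := hch'.1
    rw [List.cons_append] at this
    exact this.tail.left_of_append
  have hxy : x ≠ y := by
    rintro rfl
    simp at hnd
  have hxo : x ≠ o := hne x (by simp)
  have hyo : y ≠ o := hne y (by simp)
  -- the last vertex of `A`
  obtain ⟨A'', a', hA''⟩ : ∃ A'' a', A = A'' ++ [a'] := by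
    rcases List.eq_nil_or_concat A with h | ⟨A'', a', h⟩
    · rw [hA] at h; cases h
    · exact ⟨A'', a', by simpa using h⟩
  have ha'y : T o a' y := by
    have h := hch'.1
    rw [hA'', List.cons_append, List.append_assoc] at h
    exact (List.isChain_iff_forall_rel_of_append_cons_cons.1 h) (l₁ := x :: A'') (l₂ := [])
      (by simp)
  have ha'A : a' ∈ A := by rw [hA'']; simp
  obtain ⟨b, B', hB'⟩ := List.exists_cons_of_ne_nil hB
  have hyb : T o y b := by
    have h := hch'.2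
    rw [hB', List.isChain_cons_cons] at h
    exact h.1
  have hbB : b ∈ B := by rw [hB']; simp
  have hb2 : b ∈ Vert T₂ := by
    rcases ((hg _ _ _).1 hyb).1 with h | h
    · exfalso
      have k1 : T₁ o y x := h₁.swp23 ha
      have k2 : T₁ o y a' := h₁.swp23 (tr1 a' (hA1 a' ha'A) (hPA a' ha'A) y ha'y)
      rcases h₁.opp_uniq k1 k2 (hPA a' ha'A).2.1.symm h with e | e
      · exact (hPB b hbB).2.1 e
      · exact hAB a' ha'A (e ▸ hbB)
    · exact h₂.vert3 h
  have hB2 : ∀ v ∈ B, v ∈ Vert T₂ := by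
    rw [hB']
    refine chain_in h₂ tr2 B' b ?_ (by rw [← hB']; exact hPB) hb2
    rw [← hB']
    exact hch'.2.tail
  refine ⟨⟨?_, ?_, ?_, ?_⟩, ⟨?_, ?_, ?_, ?_⟩, hB2⟩
  · refine hnd.sublist ?_
    refine List.Sublist.append (List.Sublist.refl _) ?_
    simp
  · rw [hA]; simp
  · refine hch'.1.imp_of_mem_imp ?_
    intro u v hu hv huv
    simp only [List.cons_append, List.mem_cons, List.mem_append, List.mem_singleton,
      List.not_mem_nil, or_false] at hu hv
    by_cases huA : u ∈ A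
    · exact tr1 u (hA1 u huA) (hPA u huA) v huv
    by_cases hvA : v ∈ A
    · exact h₁.swp23 (tr1 v (hA1 v hvA) (hPA v hvA) u (hT.swp23 huv))
    exfalso
    have huv' := (hT.distinct huv).2.1
    rcases hu with rfl | hu | rfl <;> rcases hv with rfl | hv | rfl
    · exact huv' rfl
    · exact hvA hv
    · exact hno huv
    · exact huA hu
    · exact huA hu
    · exact huA hu
    · exact hno (hT.swp23 huv)
    · exact hvA hv
    · exact huv' rfl
  · intro b' hb' a'' ha''
    have e1 : b' = y := by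
      rw [List.getLast?_append_of_ne_nil _ (by simp)] at hb'
      simpa using hb'.symm
    have e2 : a'' = x := by simpa using ha''.symm
    rw [e1, e2]
    exact h₁.swp23 ha
  · have h := hnd
    refine h.sublist ?_
    simp
  · rw [hB']; simp
  · rw [List.isChain_cons_cons]
    refine ⟨hb, hch'.2.imp_of_mem_imp ?_⟩
    intro u v hu hv huv
    simp only [List.mem_cons] at hu hv
    by_cases huB : u ∈ B
    · exact tr2 u (hB2 u huB) (hPB u huB) v huv
    by_cases hvB : v ∈ B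
    · exact h₂.swp23 (tr2 v (hB2 v hvB) (hPB v hvB) u (hT.swp23 huv))
    exfalso
    have huv' := (hT.distinct huv).2.1
    rcases hu with rfl | hu
    · rcases hv with rfl | hv
      · exact huv' rfl
      · exact hvB hv
    · exact huB hu
  · intro b' hb' a'' ha''
    have e2 : a'' = x := by simpa using ha''.symm
    rw [e2]
    have hb'' : b' ∈ B.getLast? := by
      rw [hB'] at hb' ⊢
      simpa using hb'
    have hb3 : b' ∈ B := List.mem_of_getLast? hb''
    exact tr2 b' (hB2 b' hb3) (hPB b' hb3) x (hcl b' hb'')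

theorem cut_fin (hT : IsSph T) {o x y : V} {A B : List V} (hl : IsLink T o (x :: A ++ y :: B))
    (hB : B ≠ []) (h₁ : IsSph T₁) (h₂ : IsSph T₂) (ha : T₁ o x y) (hb : T₂ o x y)
    (hV : ∀ v, v ∈ Vert T₁ → v ∈ Vert T₂ → v = o ∨ v = x ∨ v = y)
    (hg : ∀ u v w, T u v w ↔ glue T₁ T₂ o x y u v w) {a : V} {A' : List V} (hA : A = a :: A')
    (ha1 : a ∈ Vert T₁) :
    ∃ (E₁ : V → V → Prop) (T₂ : V → V → V → Prop), Disc (x :: A ++ [y]) E₁ ∧ IsSph T₂ ∧
      IsLink T₂ o (x :: y :: B) ∧ (∀ u v, EO T o u v ↔ E₁ u v ∨ EO T₂ o u v) ∧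
      (∀ v, Sup E₁ v → Sup (EO T₂ o) v → v = x ∨ v = y) ∧ E₁ x y ∧
      (∀ u v w, T u v w → u ∈ B → T₂ u v w) := by
  obtain ⟨k1, k2, k3⟩ := cut_aux hT hl hB h₁ h₂ ha hb hV hg hA ha1
  have hnd := hl.nodup
  refine ⟨EO T₁ o, T₂, Or.inr ⟨T₁, o, h₁, k1, rfl⟩, h₂, k2, ?_, ?_, ?_, ?_⟩
  · intro u v
    have e : Adj3 T u v ↔ Adj3 T₁ u v ∨ Adj3 T₂ u v := by
      rw [← adj_glue h₁ h₂ ha hb hV]
      unfold Adj3
      simp only [hg]
    unfold EO
    rw [e]
    tauto
  · rintro v ⟨u, h1, h2, -⟩ ⟨u', h3, -, -⟩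
    exact (hV v (h₁.vert_of_adj h1).1 (h₂.vert_of_adj h3).1).resolve_left h2
  · exact ⟨h₁.adj23 ha, k1.ne h₁ x (by simp), k1.ne h₁ y (by simp)⟩
  · intro u v w huvw hu
    rcases ((hg _ _ _).1 huvw).1 with h | h
    · rcases hV u (IsSph.vert1 h) (k3 u hu) with e | e | e
      · exact absurd e (k2.ne h₂ u (by simp [hu]))
      · subst e; simp [hu] at hnd
      · subst e
        simp only [List.cons_append, List.nodup_cons, List.nodup_append] at hnd
        exact absurd hu hnd.2.2.1.1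
    · exact h

/-- cutting a disc along the chord `x y` -/
theorem cut (hT : IsSph T) {o x y : V} {A B : List V} (hl : IsLink T o (x :: A ++ y :: B))
    (hB : B ≠ []) (hxy : Adj3 T x y) :
    ∃ (E₁ : V → V → Prop) (T₂ : V → V → V → Prop), Disc (x :: A ++ [y]) E₁ ∧ IsSph T₂ ∧
      IsLink T₂ o (x :: y :: B) ∧ (∀ u v, EO T o u v ↔ E₁ u v ∨ EO T₂ o u v) ∧
      (∀ v, Sup E₁ v → Sup (EO T₂ o) v → v = x ∨ v = y) ∧ E₁ x y ∧
      (∀ u v w, T u v w → u ∈ B → T₂ u v w) := by
  have hne := hl.ne hT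
  have hxo : x ≠ o := hne x (by simp)
  have hyo : y ≠ o := hne y (by simp)
  rcases A with _ | ⟨a, A'⟩
  · refine ⟨Ed x y, T, Or.inl ⟨x, y, hT.adj_ne hxy, rfl, rfl⟩, hT, hl, ?_, ?_, Or.inl ⟨rfl, rfl⟩,
      fun _ _ _ h _ => h⟩
    · intro u v
      constructor
      · exact Or.inr
      · rintro ((⟨rfl, rfl⟩ | ⟨rfl, rfl⟩) | h)
        · exact ⟨hxy, hxo, hyo⟩
        · exact ⟨hT.adj_symm hxy, hyo, hxo⟩
        · exact h
    · rintro v ⟨u, ⟨h, -⟩ | ⟨h, -⟩⟩ -
      · exact Or.inl h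
      · exact Or.inr h
  have hxa : T o x a := by
    have h := hl.ch
    simp only [List.cons_append, List.isChain_cons_cons] at h
    exact h.1
  have hno : ¬ T o x y := by
    intro h
    obtain ⟨B'', q, hB''⟩ : ∃ B'' q, B = B'' ++ [q] := by
      rcases List.eq_nil_or_concat B with h | ⟨A'', a', h⟩
      · exact absurd h hB
      · exact ⟨A'', a', by simpa using h⟩
    have hnd := hl.nodup
    have hl' : IsLink T o (x :: a :: (A' ++ y :: B'') ++ [q]) := by
      rw [hB''] at hl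
      simpa using hl
    rcases hl'.nb hT h with e | e
    · subst e; simp at hnd
    · subst e
      rw [hB''] at hnd
      simp only [List.cons_append, List.nodup_cons, List.nodup_append] at hnd
      exact hnd.2.2.2.1.1 (by simp)
  obtain ⟨T₁, T₂, h₁, h₂, ha, hb, hV, hg, -, -⟩ := exists_split hT
    (hl.cen hT x (by simp)) hxy (hT.adj_symm (hl.cen hT y (by simp))) hno
  rcases ((hg _ _ _).1 hxa).1 with h | h
  · exact cut_fin hT hl hB h₁ h₂ ha hb hV hg rfl (h₁.vert3 h)
  · exact cut_fin hT hl hB h₂ h₁ hb ha (fun v h1 h2 => hV v h2 h1)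
      (fun u v w => (hg u v w).trans (sphGlue_comm u v w)) rfl (h₂.vert3 h)

end Pool.Agent.Lib.MP_d86530_co
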