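import Mathlib

/-! # MP_d86530_co, level layout: from an order without 4-twist of a supergraph to the conclusion
of S11745 -/

set_option autoImplicit false

namespace Pool.Agent.Lib.MP_d86530_co.Lev

/-- the conclusion of S11745 -/
def Concl {V : Type} (G : SimpleGraph V) : Prop :=
  ∃ σ : V → ℕ, Function.Injective σ ∧
    ¬ ∃ a b : Fin 4 → V,
        (∀ i, G.Adj (a i) (b i) ∧ σ (a i) < σ (b i)) ∧
        (∀ i j : Fin 4, i < j →
          ((σ (a i) < σ (a j) ∧ σ (a j) < σ (b i) ∧ σ (b i) < σ (b j)) ∨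
           (σ (a j) < σ (a i) ∧ σ (a i) < σ (b j) ∧ σ (b j) < σ (b i))))

/-- four edges `a i b i` of the relation `E` with
`p a₀ < p a₁ < p a₂ < p a₃ < p b₀ < p b₁ < p b₂ < p b₃` -/
def Twist4 {W : Type*} (E : W → W → Prop) (p : W → ℤ) : Prop :=
  ∃ a₀ a₁ a₂ a₃ b₀ b₁ b₂ b₃ : W, E a₀ b₀ ∧ E a₁ b₁ ∧ E a₂ b₂ ∧ E a₃ b₃ ∧
    p a₀ < p a₁ ∧ p a₁ < p a₂ ∧ p a₂ < p a₃ ∧ p a₃ < p b₀ ∧ p b₀ < p b₁ ∧ p b₁ < p b₂ ∧
    p b₂ < p b₃

/-- four pairwise crossing edges can be sorted -/
theorem twist4_of_cross {V : Type*} {R : V → V → Prop} {σ : V → ℤ} {a b : Fin 4 → V}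
    (h : ∀ i, R (a i) (b i))
    (hc : ∀ i j : Fin 4, i < j →
      ((σ (a i) < σ (a j) ∧ σ (a j) < σ (b i) ∧ σ (b i) < σ (b j)) ∨
       (σ (a j) < σ (a i) ∧ σ (a i) < σ (b j) ∧ σ (b j) < σ (b i)))) :
    Twist4 R σ := by
  have hinj : Function.Injective (fun i => σ (a i)) := by
    intro i j hij
    have hij' : σ (a i) = σ (a j) := hij
    rcases lt_trichotomy i j with h1 | h1 | h1
    · rcases hc i j h1 with h2 | h2 <;> omega
    · exact h1
    · rcases hc j i h1 with h2 | h2 <;> omega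
  let e := Tuple.sort (fun i => σ (a i))
  have hmono : Monotone ((fun i => σ (a i)) ∘ e) := Tuple.monotone_sort _
  have hst : StrictMono ((fun i => σ (a i)) ∘ e) :=
    hmono.strictMono_of_injective (hinj.comp e.injective)
  have key : ∀ i j : Fin 4, i < j → σ (a (e i)) < σ (a (e j)) ∧ σ (a (e j)) < σ (b (e i)) ∧
      σ (b (e i)) < σ (b (e j)) := by
    intro i j hij
    have h1 : σ (a (e i)) < σ (a (e j)) := hst hij
    have hne : e i ≠ e j := fun he => by rw [he] at h1; exact lt_irrefl _ h1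
    rcases lt_or_gt_of_ne hne with h2 | h2
    · rcases hc _ _ h2 with h3 | h3
      · exact h3
      · omega
    · rcases hc _ _ h2 with h3 | h3
      · omega
      · exact h3
  have k01 := key 0 1 (by decide)
  have k12 := key 1 2 (by decide)
  have k23 := key 2 3 (by decide)
  have k03 := key 0 3 (by decide)
  exact ⟨a (e 0), a (e 1), a (e 2), a (e 3), b (e 0), b (e 1), b (e 2), b (e 3),
    h _, h _, h _, h _, k01.1, k12.1, k23.1, k03.2.1, k01.2.2, k12.2.2, k23.2.2⟩

/-- the conclusion of S11745 from an order without 4-twist -/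
theorem concl_of_order {V : Type} [Fintype V] (G : SimpleGraph V) (p : V → ℤ)
    (hp : Function.Injective p) (ht : ¬ Twist4 G.Adj p) : Concl G := by
  classical
  let σ : V → ℕ := fun v => (Finset.univ.filter (fun v' => p v' < p v)).card
  have hmono : ∀ u v, p u < p v → σ u < σ v := by
    intro u v huv
    apply Finset.card_lt_card
    rw [Finset.ssubset_iff_of_subset]
    · exact ⟨u, by simpa using huv, by simp⟩
    · intro x hx
      simp only [Finset.mem_filter, Finset.mem_univ, true_and] at hx ⊢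
      exact hx.trans huv
  have hiff : ∀ u v, σ u < σ v ↔ p u < p v := by
    intro u v
    constructor
    · intro hlt
      rcases lt_trichotomy (p u) (p v) with h1 | h1 | h1
      · exact h1
      · rw [hp h1] at hlt
        exact absurd hlt (lt_irrefl _)
      · exact absurd hlt (not_lt.mpr (hmono v u h1).le)
    · exact hmono u v
  refine ⟨σ, ?_, ?_⟩
  · intro u v huv
    rcases lt_trichotomy (p u) (p v) with h1 | h1 | h1
    · exact absurd huv (hmono u v h1).ne
    · exact hp h1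
    · exact absurd huv (hmono v u h1).ne'
  · rintro ⟨a, b, hab, hcr⟩
    simp only [hiff] at hab hcr
    exact ht (twist4_of_cross (fun i => (hab i).1) hcr)

/-- a 4-twist has eight different vertices -/
theorem eight_le_of_twist4 {V : Type} [Fintype V] {R : V → V → Prop} {p : V → ℤ}
    (h : Twist4 R p) : 8 ≤ Fintype.card V := by
  obtain ⟨a₀, a₁, a₂, a₃, b₀, b₁, b₂, b₃, -, -, -, -, h1, h2, h3, h4, h5, h6, h7⟩ := h
  have hinj : Function.Injective (![a₀, a₁, a₂, a₃, b₀, b₁, b₂, b₃] : Fin 8 → V) := by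
    have hst : StrictMono (fun i : Fin 8 => p ((![a₀, a₁, a₂, a₃, b₀, b₁, b₂, b₃] : Fin 8 → V) i)) := by
      rw [Fin.strictMono_iff_lt_succ]
      intro i
      fin_cases i <;> simpa
    intro i j hij
    exact hst.injective (congrArg p hij)
  simpa using Fintype.card_le_of_injective _ hinj

theorem concl_small {V : Type} [Fintype V] (G : SimpleGraph V) (hV : Fintype.card V < 8) :
    Concl G := by
  classical
  refine concl_of_order G (fun v => ((Fintype.equivFin V v : ℕ) : ℤ)) ?_ ?_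
  · intro u v huv
    have h1 : ((Fintype.equivFin V u : ℕ) : ℤ) = ((Fintype.equivFin V v : ℕ) : ℤ) := huv
    exact (Fintype.equivFin V).injective (Fin.ext (by exact_mod_cast h1))
  · intro h
    have := eight_le_of_twist4 h
    omega

/-- a graph contained in a relation with an order without 4-twist -/
theorem concl_of_sub {V W : Type} [Fintype V] (G : SimpleGraph V) (E : W → W → Prop)
    (φ : V → W) (hE : ∀ u v, G.Adj u v → E (φ u) (φ v)) (p : W → ℤ)
    (hp : ∀ u v, p (φ u) = p (φ v) → u = v) (ht : ¬ Twist4 E p) : Concl G := by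
  refine concl_of_order G (fun v => p (φ v)) (fun u v h => hp u v h) ?_
  rintro ⟨a₀, a₁, a₂, a₃, b₀, b₁, b₂, b₃, e0, e1, e2, e3, h⟩
  exact ht ⟨φ a₀, φ a₁, φ a₂, φ a₃, φ b₀, φ b₁, φ b₂, φ b₃, hE _ _ e0, hE _ _ e1, hE _ _ e2,
    hE _ _ e3, h⟩

/-- positions along a list without repetitions -/
theorem exists_pos {W : Type*} (l : List W) (hl : l.Nodup) :
    ∃ p : W → ℤ, l.Pairwise (fun x y => p x < p y) ∧
      ∀ x ∈ l, ∀ y ∈ l, p x = p y → x = y := by
  classical
  refine ⟨fun x => (l.idxOf x : ℤ), ?_, ?_⟩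
  · rw [List.pairwise_iff_getElem]
    intro i j hi hj hij
    simp only [hl.idxOf_getElem]
    exact_mod_cast hij
  · intro x hx y hy hxy
    have hxy' : ((l.idxOf x : ℕ) : ℤ) = ((l.idxOf y : ℕ) : ℤ) := hxy
    exact (List.idxOf_inj hx).1 (Int.ofNat_inj.1 hxy')

end Pool.Agent.Lib.MP_d86530_co.Lev
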