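import Pool.Agent.Lib.MP_d86530_co.TopSph
import Pool.Agent.Lib.MP_d86530_co.Lev.FinalOrd

/-! # MP_d86530_co, level layout: final assembly -/

set_option autoImplicit false

namespace Pool.Agent.Lib.MP_d86530_co.Lev

/-- The frozen statement S11745, given an order without 4-twist for every combinatorial sphere. -/
theorem lev_final
    (H : ∀ (W : Type) (T : W → W → W → Prop), IsSph T → ∀ a b c, T a b c →
      ∃ p : W → ℤ, (∀ x ∈ Vert T, ∀ y ∈ Vert T, p x = p y → x = y) ∧ ¬ Twist4 (Adj3 T) p)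
    (V : Type) [Fintype V] (G : SimpleGraph V) (hG : Pool.Agent.OQP.TopPlanar G) : Concl G := by
  by_cases h8 : Fintype.card V < 8
  · exact concl_small G h8
  · obtain ⟨W, T, hT, φ, hφ, hv, hE⟩ := topPlanar_sph hG (by omega)
    obtain ⟨a, b, c, habc⟩ := hT.inh
    obtain ⟨p, hp, ht⟩ := H W T hT a b c habc
    exact concl_of_sub G (Adj3 T) φ hE p
      (fun u v huv => hφ (hp _ (hv u) _ (hv v) huv)) ht

end Pool.Agent.Lib.MP_d86530_co.Lev
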