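import Pool.Agent.Lib.MP_d86530_co.Lev.Api
import Pool.Agent.Lib.MP_d86530_co.Lev.ConeLink
import Pool.Agent.Lib.MP_d86530_co.Lev.Final
import Pool.Agent.Lib.MP_d86530_co.Lv.Lists

/-! # MP_d86530_co, level layout: the main theorem from the closure lemmas -/

set_option autoImplicit false

namespace Pool.Agent.Lib.MP_d86530_co.Lev

/-- every combinatorial sphere has a vertex order without 4-twist -/
theorem sph_order (hdc : Lv.S_DC) (hdi : Lv.S_DI) (hfd : Lv.S_FD) (W : Type)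
    (T : W → W → W → Prop) (hT : IsSph T) (a b c : W) (habc : T a b c) :
    ∃ p : W → ℤ, (∀ x ∈ Vert T, ∀ y ∈ Vert T, p x = p y → x = y) ∧ ¬ Twist4 (Adj3 T) p := by
  obtain ⟨T', hT', hl, hE⟩ := exists_cone hT habc
  have hPD := disc_rec (Lv.discClosed (W := Option W) hdc hdi hfd) hT' hl
  obtain ⟨p, hinj, htw⟩ := hPD.noTwist
  refine ⟨fun x => p (some x), ?_, ?_⟩
  · have hs : ∀ x ∈ Vert T, Sup (EO T' none) (some x) := by
      rintro x ⟨y, z, h⟩
      exact ⟨some y, (hE x y).1 ⟨z, h⟩⟩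
    intro x hx y hy hxy
    exact Option.some_injective _ (hinj _ _ (hs x hx) (hs y hy) hxy)
  · rintro ⟨a₀, a₁, a₂, a₃, b₀, b₁, b₂, b₃, e0, e1, e2, e3, h1, h2, h3, h4, h5, h6, h7⟩
    exact htw (some a₀) (some a₁) (some a₂) (some a₃) (some b₀) (some b₁) (some b₂) (some b₃)
      ((hE _ _).1 e0) ((hE _ _).1 e1) ((hE _ _).1 e2) ((hE _ _).1 e3) h1 h2 h3 h4 h5 h6 h7

/-- the frozen statement S11745 from the closure lemmas -/
theorem lev_main (hdc : Lv.S_DC) (hdi : Lv.S_DI) (hfd : Lv.S_FD) (V : Type) [Fintype V]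
    (G : SimpleGraph V) (hG : Pool.Agent.OQP.TopPlanar G) : Concl G :=
  lev_final (sph_order hdc hdi hfd) V G hG

end Pool.Agent.Lib.MP_d86530_co.Lev
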