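import Pool.Agent.Lib.MP_d86530_co.Lev.Rec
import Pool.Agent.Lib.MP_d86530_co.Lev.Disc

/-! # MP_d86530_co, level layout: discs of spheres satisfy the interface of the recursion -/

set_option autoImplicit false

namespace Pool.Agent.Lib.MP_d86530_co

open Relation

variable {V : Type*} {T : V → V → V → Prop}

theorem recDisc_edge_len {a b : V} {l : List V} (h : l = [a, b]) (h' : 3 ≤ l.length) : False := by
  subst h; simp at h'

theorem recDisc_boundary (hT : IsSph T) {o a b w : V} {A B : List V}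
    (hl : IsLink T o (a :: (A ++ w :: B) ++ [b])) (hw : T a b w) :
    ∃ E₁ E₂ : V → V → Prop, Disc (a :: A ++ [w]) E₁ ∧ Disc (w :: B ++ [b]) E₂ ∧
      (∀ v, Sup E₁ v → Sup E₂ v → v = w) ∧
      (∀ u v, EO T o u v ↔ E₁ u v ∨ E₂ u v ∨ Ed a b u v) := by
  have hl' : IsLink T o (a :: A ++ w :: (B ++ [b])) := by simpa using hl
  have haw : a ≠ w := (hT.distinct hw).2.2.symm
  have hab : a ≠ b := (hT.distinct hw).1
  obtain ⟨E₁, T₂, d1, s2, l2, e1, c1, j1, m1⟩ := cut hT hl' (by simp) ⟨b, hT.swp23 hw⟩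
  have hb2 : T₂ b a w := m1 b a w (hT.swp hw) (by simp)
  have l2' : IsLink T₂ o (w :: B ++ b :: [a]) := by
    have := IsLink.rotate (A := [a]) (B := w :: (B ++ [b])) l2
    simpa using this
  obtain ⟨E₂, T₃, d2, s3, l3, e2, c2, j2, m2⟩ := cut s2 l2' (by simp) ⟨a, s2.rot2 hb2⟩
  have ha3 : T₃ a b w := m2 a b w (s2.swp hb2) (by simp)
  have ht := tet s3 l3 (s3.swp13 ha3)
  refine ⟨E₁, E₂, d1, d2, ?_, ?_⟩
  · intro v h1 h2
    have h3 : Sup (EO T₂ o) v := by
      obtain ⟨y, hy⟩ := h2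
      exact ⟨y, (e2 _ _).2 (Or.inl hy)⟩
    rcases c1 v h1 h3 with h4 | h4
    · exfalso
      subst h4
      have h5 : Sup (EO T₃ o) v := ⟨b, (ht _ _).2 (Or.inr (Or.inl (Or.inr ⟨rfl, rfl⟩)))⟩
      rcases c2 v h2 h5 with h6 | h6
      · exact haw h6
      · exact hab h6
    · exact h4
  · intro u v
    rw [e1 u v, e2 u v, ht u v]
    constructor
    · rintro (h | h | h | h | h)
      · exact Or.inl h
      · exact Or.inr (Or.inl h)
      · rcases h with ⟨rfl, rfl⟩ | ⟨rfl, rfl⟩
        · exact Or.inr (Or.inl j2)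
        · exact Or.inr (Or.inl (d2.gph.1 _ _ j2))
      · exact Or.inr (Or.inr h.symm)
      · rcases h with ⟨rfl, rfl⟩ | ⟨rfl, rfl⟩
        · exact Or.inl (d1.gph.1 _ _ j1)
        · exact Or.inl j1
    · rintro (h | h | h)
      · exact Or.inl h
      · exact Or.inr (Or.inl h)
      · exact Or.inr (Or.inr (Or.inr (Or.inl h.symm)))

theorem discAPI63 : DiscAPI (Disc (V := V)) where
  gph _ _ h := h.gph
  nd _ _ h := h.nodup
  len l E h := by
    rcases h with ⟨a, b, -, rfl, -⟩ | ⟨T, o, -, h1, -⟩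
    · simp
    · have := h1.len; omega
  fin _ _ h := h.finite
  two a b E h := by
    rcases h with ⟨a', b', -, h2, rfl⟩ | ⟨T, o, -, h1, -⟩
    · obtain ⟨rfl, rfl⟩ : a = a' ∧ b = b' := by simpa using h2
      intro u v; exact Iff.rfl
    · exact absurd h1.len (by simp)
  adj a b l E h := by
    rcases h with ⟨a', b', -, h2, rfl⟩ | ⟨T, o, h1, h2, rfl⟩
    · rcases l with _ | ⟨c, l⟩
      · obtain ⟨rfl, rfl⟩ : a = a' ∧ b = b' := by simpa using h2
        exact Or.inl ⟨rfl, rfl⟩
      · have := congrArg List.length h2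
        simp at this
    · have c : T o b a := h2.close b (by rw [List.getLast?_append_of_ne_nil _ (by simp)]; simp) a
        (by simp)
      exact ⟨⟨o, h1.rot2 (h1.swp23 c) |> fun k => h1.rot2 k⟩, h2.ne h1 a (by simp),
        h2.ne h1 b (by simp)⟩
  rot _ _ _ h := h.rotate
  rev _ _ h := h.reverse
  cut x y A B E h hxy hA hB := by
    rcases h with ⟨a', b', -, h2, rfl⟩ | ⟨T, o, h1, h2, rfl⟩
    · exfalso
      rcases A with _ | ⟨a, A⟩
      · exact hA rfl
      · have := congrArg List.length h2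
        simp at this
    · obtain ⟨E₁, T₂, d1, s2, l2, e1, c1, -, -⟩ := cut h1 h2 hB hxy.1
      exact ⟨E₁, EO T₂ o, d1, Or.inr ⟨T₂, o, s2, l2, rfl⟩, e1, c1⟩
  peel a b l E h hl := by
    rcases h with ⟨a', b', -, h2, rfl⟩ | ⟨T, o, h1, h2, rfl⟩
    · exfalso
      rcases l with _ | ⟨c, l⟩
      · exact hl rfl
      · have := congrArg List.length h2
        simp at this
    · obtain ⟨w, hwo, hw, hw' | ⟨hw', T', s', l', e', n'⟩⟩ := peel h1 h2
      · right
        have hwl : w ∈ l := by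
          simp only [List.cons_append, List.mem_cons, List.mem_append, List.not_mem_nil,
            or_false] at hw'
          rcases hw' with h3 | h3 | h3
          · exact absurd h3 (h1.distinct hw).2.2
          · exact h3
          · exact absurd h3.symm (h1.distinct hw).2.1
        obtain ⟨A, B, rfl⟩ := List.append_of_mem hwl
        obtain ⟨E₁, E₂, d1, d2, c, e⟩ := recDisc_boundary h1 h2 hw
        exact ⟨A, w, B, E₁, E₂, rfl, d1, d2, c, e⟩
      · left
        exact ⟨w, EO T' o, hw', Or.inr ⟨T', o, s', l', rfl⟩, e', n'⟩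

/-- every disc has the property `PD` -/
theorem disc_rec63 {PD : List V → (V → V → Prop) → Prop}
    {PF : List V → List V → (V → V → Prop) → Prop} (hc : DiscClosed PD PF) (h : IsSph T) {o : V}
    {l : List V} (hl : IsLink T o l) : PD l (EO T o) :=
  disc_rec_abs discAPI63 hc (Or.inr ⟨T, o, h, hl, rfl⟩)

end Pool.Agent.Lib.MP_d86530_co
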